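import Mathlib
import Pool.Agent.Conf14.Ind

/-! Commuting endomorphisms with partners and extra commuting endomorphisms: a bound for the
dimension. -/

namespace Pool.Agent.Frm14

open Pool.Agent.Conf14

variable {V : Type*} [AddCommGroup V] [Module ℂ V]

/-- the independence lemma with extra commuting elements `b k` -/
theorem indep_gen [FiniteDimensional ℂ V] {ι κ σ : Type*} [Fintype ι] [Fintype κ] [Fintype σ]
    (x y : ι → (V →ₗ[ℂ] V)) (b : κ → (V →ₗ[ℂ] V)) (z : σ → (V →ₗ[ℂ] V))
    (hx : ∀ i j v, x i (x j v) = x j (x i v))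
    (hb : ∀ i j v, b i (b j v) = b j (b i v))
    (hxb : ∀ i k v, x i (b k v) = b k (x i v))
    (hyb : ∀ i k v, y i (b k v) = b k (y i v))
    (hxy : ∀ i j, i ≠ j → ∀ v, x i (y j v) = y j (x i v))
    (hne : ∀ i, ∃ v, x i (y i v) ≠ y i (x i v))
    (hz : ∀ s, z s ≠ 0)
    (hsep : ∀ v, (∀ s, z s v ≠ 0) → LinearIndependent ℂ fun k => b k v) :
    Fintype.card ι + Fintype.card κ ≤ Module.finrank ℂ V := by
  classical
  -- a generic vector and a generic functional
  obtain ⟨v, hv⟩ := exists_vec (Sum.elim z (fun i => x i ∘ₗ y i - y i ∘ₗ x i)) (by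
      intro i
      cases i with
      | inl s => exact hz s
      | inr i =>
          intro h
          obtain ⟨u, hu⟩ := hne i
          have := LinearMap.congr_fun h u
          exact hu (sub_eq_zero.mp this))
  have hvs : LinearIndependent ℂ fun k => b k v := hsep v fun s => hv (Sum.inl s)
  have hvz : ∀ i, x i (y i v) - y i (x i v) ≠ 0 := fun i => hv (Sum.inr i)
  obtain ⟨φ, hφ⟩ := exists_vec (fun i : ι =>
    Module.Dual.eval ℂ V (x i (y i v) - y i (x i v))) (by
      intro i h
      apply hvz i
      rw [← Module.forall_dual_apply_eq_zero_iff ℂ]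
      intro f
      exact LinearMap.congr_fun h f)
  have hφz : ∀ i, φ (x i (y i v)) - φ (y i (x i v)) ≠ 0 := by
    intro i
    rw [← map_sub]
    exact hφ i
  -- coefficients
  let L : (ι ⊕ κ → ℂ) →ₗ[ℂ] (V →ₗ[ℂ] V) :=
    Fintype.linearCombination ℂ (Sum.elim x b)
  have hL : ∀ c u, L c u = ∑ i, c i • Sum.elim x b i u := by
    intro c u
    simp only [L, Fintype.linearCombination_apply, LinearMap.smul_apply, LinearMap.sum_apply]
  have hL2 : ∀ c u, L c u = (∑ i, c (Sum.inl i) • x i u) + ∑ k, c (Sum.inr k) • b k u := by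
    intro c u
    rw [hL, Fintype.sum_sum_type]
    rfl
  let T : (ι ⊕ κ → ℂ) →ₗ[ℂ] V := (LinearMap.applyₗ v) ∘ₗ L
  have hT : ∀ c, T c = L c v := fun _ => rfl
  have hall : ∀ i j u, Sum.elim x b i (Sum.elim x b j u) = Sum.elim x b j (Sum.elim x b i u) := by
    intro i j u
    cases i with
    | inl i =>
        cases j with
        | inl j => exact hx i j u
        | inr j => exact hxb i j u
    | inr i =>
        cases j with
        | inl j => exact (hxb j i u).symm
        | inr j => exact hb i j u
  have hcomm : ∀ c d u, L c (L d u) = L d (L c u) := by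
    intro c d u
    rw [hL, hL d u, hL d (L c u), hL c u]
    simp only [map_smul, map_sum, Finset.smul_sum]
    rw [Finset.sum_comm]
    apply Finset.sum_congr rfl
    intro i _
    apply Finset.sum_congr rfl
    intro j _
    rw [hall j i u, smul_comm]
  -- the main argument
  have key : ∀ c, T c = 0 → (∀ u, φ (L c u) = 0) → c = 0 := by
    intro c hc hcφ
    have h1 : ∀ i, c (Sum.inl i) = 0 := by
      intro m
      have e1 : φ (L c (y m v)) - φ (y m (L c v)) = 0 := by
        rw [hcφ, ← hT, hc, map_zero, map_zero, sub_zero]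
      rw [hL2, hL2] at e1
      simp only [map_add, map_smul, map_sum] at e1
      have e2 : (∑ i, c (Sum.inl i) • φ (x i (y m v))) -
          ∑ i, c (Sum.inl i) • φ (y m (x i v)) =
          c (Sum.inl m) • (φ (x m (y m v)) - φ (y m (x m v))) := by
        rw [← Finset.sum_sub_distrib, Finset.sum_eq_single m, smul_sub]
        · intro i _ him
          rw [hxy i m him, sub_self]
        · intro h
          exact absurd (Finset.mem_univ m) h
      have e3 : (∑ k, c (Sum.inr k) • φ (b k (y m v))) =
          ∑ k, c (Sum.inr k) • φ (y m (b k v)) :=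
        Finset.sum_congr rfl fun k _ => by rw [hyb]
      have e4 : c (Sum.inl m) • (φ (x m (y m v)) - φ (y m (x m v))) = 0 := by
        rw [← e2, ← e1, e3]
        ring
      exact (smul_eq_zero.mp e4).resolve_right (hφz m)
    have h2 : ∀ k, c (Sum.inr k) = 0 := by
      have e1 := hc
      rw [hT, hL2] at e1
      simp only [h1, zero_smul, Finset.sum_const_zero, zero_add] at e1
      exact Fintype.linearIndependent_iff.mp hvs _ e1
    funext i
    cases i with
    | inl i => exact h1 i
    | inr k => exact h2 k
  -- dimension count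
  let S : LinearMap.ker T →ₗ[ℂ] (LinearMap.range T).dualAnnihilator :=
    { toFun := fun c => ⟨φ ∘ₗ L c.1, by
        rw [Submodule.mem_dualAnnihilator]
        rintro _ ⟨d, rfl⟩
        show φ (L c.1 (T d)) = 0
        have hc : L c.1 v = 0 := c.2
        rw [hT, hcomm, hc, map_zero, map_zero]⟩
      map_add' := by
        intro c d
        apply Subtype.ext
        show φ ∘ₗ L (c.1 + d.1) = φ ∘ₗ L c.1 + φ ∘ₗ L d.1
        rw [map_add, LinearMap.comp_add]
      map_smul' := by
        intro a c
        apply Subtype.ext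
        show φ ∘ₗ L (a • c.1) = a • (φ ∘ₗ L c.1)
        rw [map_smul, LinearMap.comp_smul] }
  have hS : Function.Injective S := by
    rw [injective_iff_map_eq_zero]
    intro c hc
    apply Subtype.ext
    apply key c.1 c.2
    intro u
    have h1 : φ ∘ₗ L c.1 = 0 := congrArg Subtype.val hc
    exact LinearMap.congr_fun h1 u
  have h1 := LinearMap.finrank_le_finrank_of_injective hS
  have h2 := Subspace.finrank_add_finrank_dualAnnihilator_eq (LinearMap.range T)
  have h3 := LinearMap.finrank_range_add_finrank_ker T
  have h4 : Module.finrank ℂ (ι ⊕ κ → ℂ) = Fintype.card ι + Fintype.card κ := by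
    rw [Module.finrank_fintype_fun_eq_card, Fintype.card_sum]
  omega

end Pool.Agent.Frm14
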