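import Mathlib
import Pool.Agent.Frm14.Gen

/-! Chains of commuting endomorphisms with partners: one more commuting endomorphism, and
restriction to stable subspaces. -/

namespace Pool.Agent.Frm14

open Pool.Agent.Conf14

variable {V : Type*} [AddCommGroup V] [Module ℂ V]

/-- the endomorphism is a scalar -/
def Scl (w : V →ₗ[ℂ] V) : Prop := ∃ c : ℂ, ∀ v, w v = c • v

/-- finitely many nonzero linear maps detect that a vector is not an eigenvector -/
theorem exists_detect [FiniteDimensional ℂ V] {U : Type*} [AddCommGroup U] [Module ℂ U]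
    (w : V →ₗ[ℂ] V) (f : U →ₗ[ℂ] V) (hw : ∀ c : ℂ, ∃ u, w (f u) ≠ c • f u) :
    ∃ (σ : Type) (_ : Fintype σ) (z : σ → (U →ₗ[ℂ] V)), (∀ s, z s ≠ 0) ∧
      ∀ u, (∀ s, z s u ≠ 0) → f u ≠ 0 ∧ ∀ c : ℂ, w (f u) ≠ c • f u := by
  classical
  have hfin : Set.Finite {μ : ℂ | Module.End.HasEigenvalue (w : Module.End ℂ V) μ} :=
    Module.End.finite_hasEigenvalue _
  refine ⟨Option hfin.toFinset, inferInstance, fun s => match s with
    | none => f
    | some μ => w ∘ₗ f - (μ : ℂ) • f, ?_, ?_⟩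
  · intro s
    cases s with
    | none =>
        intro h
        obtain ⟨u, hu⟩ := hw 0
        apply hu
        have : f u = 0 := LinearMap.congr_fun h u
        rw [this, map_zero, smul_zero]
    | some μ =>
        intro h
        obtain ⟨u, hu⟩ := hw μ
        apply hu
        have := LinearMap.congr_fun h u
        exact sub_eq_zero.mp this
  · intro u hu
    have h0 : f u ≠ 0 := hu none
    refine ⟨h0, ?_⟩
    intro c hc
    have hev : Module.End.HasEigenvalue (w : Module.End ℂ V) c :=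
      Module.End.hasEigenvalue_of_hasEigenvector (x := f u) ⟨Module.End.mem_eigenspace_iff.mpr hc, h0⟩
    have := hu (some ⟨c, hfin.mem_toFinset.mpr hev⟩)
    apply this
    show w (f u) - c • f u = 0
    rw [hc, sub_self]

/-- a commuting endomorphism which is not a scalar counts as well -/
theorem two_more [FiniteDimensional ℂ V] {ι : Type*} [Fintype ι]
    (x y : ι → (V →ₗ[ℂ] V)) (w : V →ₗ[ℂ] V)
    (hx : ∀ i j v, x i (x j v) = x j (x i v))
    (hxy : ∀ i j, i ≠ j → ∀ v, x i (y j v) = y j (x i v))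
    (hne : ∀ i, ∃ v, x i (y i v) ≠ y i (x i v))
    (hwx : ∀ i v, w (x i v) = x i (w v)) (hwy : ∀ i v, w (y i v) = y i (w v))
    (hw : ¬ Scl w) : Fintype.card ι + 2 ≤ Module.finrank ℂ V := by
  have hw' : ∀ c : ℂ, ∃ u, w ((LinearMap.id : V →ₗ[ℂ] V) u) ≠
      c • (LinearMap.id : V →ₗ[ℂ] V) u := by
    intro c
    by_contra hcon
    push Not at hcon
    exact hw ⟨c, hcon⟩
  obtain ⟨σ, _, z, hz, hsep⟩ := exists_detect w LinearMap.id hw'
  have := indep_gen x y (![LinearMap.id, w] : Fin 2 → (V →ₗ[ℂ] V)) z hx ?_ ?_ ?_ hxy hne hz ?_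
  · rwa [Fintype.card_fin] at this
  · intro i j v
    fin_cases i <;> fin_cases j <;> simp
  · intro i k v
    fin_cases k <;> simp [hwx]
  · intro i k v
    fin_cases k <;> simp [hwy]
  · intro v hv
    obtain ⟨h0, h1⟩ := hsep v hv
    rw [linearIndependent_fin2]
    refine ⟨?_, ?_⟩
    · intro h
      have h' : w v = 0 := h
      exact h1 0 (by rw [zero_smul]; exact h')
    · intro a ha
      have ha' : a • w v = v := ha
      by_cases ha0 : a = 0
      · rw [ha0, zero_smul] at ha'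
        exact h0 ha'.symm
      · apply h1 a⁻¹
        show w v = a⁻¹ • v
        nth_rw 2 [← ha']
        rw [smul_smul, inv_mul_cancel₀ ha0, one_smul]

/-- a chain of commuting endomorphisms with partners, all commuting with `T` -/
structure Chn {ι : Type*} (T : V →ₗ[ℂ] V) (x y : ι → (V →ₗ[ℂ] V)) : Prop where
  hx : ∀ i j v, x i (x j v) = x j (x i v)
  hxy : ∀ i j, i ≠ j → ∀ v, x i (y j v) = y j (x i v)
  hne : ∀ i, ∃ v, x i (y i v) ≠ y i (x i v)
  tx : ∀ i v, T (x i v) = x i (T v)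
  ty : ∀ i v, T (y i v) = y i (T v)

/-- the active indices on a subspace -/
def Fset {ι : Type*} (x y : ι → (V →ₗ[ℂ] V)) (W : Submodule ℂ V) : Set ι :=
  {i | ∃ v ∈ W, x i (y i v) ≠ y i (x i v)}

section
variable {ι : Type*} [Fintype ι] {T : V →ₗ[ℂ] V} {x y : ι → (V →ₗ[ℂ] V)}
  {W : Submodule ℂ V}

theorem Chn.bound_one [FiniteDimensional ℂ V] (h : Chn T x y) (hW : W ≠ ⊥)
    (hWx : ∀ i, ∀ v ∈ W, x i v ∈ W) (hWy : ∀ i, ∀ v ∈ W, y i v ∈ W) :
    Nat.card (Fset x y W) + 1 ≤ Module.finrank ℂ W := by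
  classical
  haveI : Nontrivial W := Submodule.nontrivial_iff_ne_bot.mpr hW
  have := indep_iso (ι := Fset x y W) (V := W)
    (fun i => (x i).restrict (hWx i)) (fun i => (y i).restrict (hWy i)) (fun _ => 0) ?_ ?_ ?_
  · rwa [← Nat.card_eq_fintype_card] at this
  · intro i j v
    exact Subtype.ext (h.hx i j v)
  · intro i j hij _ v
    exact Subtype.ext (h.hxy i j (fun e => hij (Subtype.ext e)) v)
  · rintro ⟨i, v, hv, hne⟩
    exact ⟨⟨v, hv⟩, fun e => hne (congrArg Subtype.val e)⟩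

theorem Chn.bound_two [FiniteDimensional ℂ V] (h : Chn T x y)
    (hWx : ∀ i, ∀ v ∈ W, x i v ∈ W) (hWy : ∀ i, ∀ v ∈ W, y i v ∈ W)
    (w : V →ₗ[ℂ] V) (hw : ∀ v ∈ W, w v ∈ W)
    (hwx : ∀ i ∈ Fset x y W, ∀ v ∈ W, w (x i v) = x i (w v))
    (hwy : ∀ i ∈ Fset x y W, ∀ v ∈ W, w (y i v) = y i (w v))
    (hns : ¬ ∃ c : ℂ, ∀ v ∈ W, w v = c • v) :
    Nat.card (Fset x y W) + 2 ≤ Module.finrank ℂ W := by
  classical
  have := two_more (ι := Fset x y W) (V := W)
    (fun i => (x i).restrict (hWx i)) (fun i => (y i).restrict (hWy i)) (w.restrict hw)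
    ?_ ?_ ?_ ?_ ?_ ?_
  · rwa [← Nat.card_eq_fintype_card] at this
  · intro i j v
    exact Subtype.ext (h.hx i j v)
  · intro i j hij v
    exact Subtype.ext (h.hxy i j (fun e => hij (Subtype.ext e)) v)
  · rintro ⟨i, v, hv, hne⟩
    exact ⟨⟨v, hv⟩, fun e => hne (congrArg Subtype.val e)⟩
  · rintro ⟨i, hi⟩ v
    exact Subtype.ext (hwx i hi v v.2)
  · rintro ⟨i, hi⟩ v
    exact Subtype.ext (hwy i hi v v.2)
  · rintro ⟨c, hc⟩
    exact hns ⟨c, fun v hv => congrArg Subtype.val (hc ⟨v, hv⟩)⟩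

/-- the two halves of a decomposition of a space of the least dimension plus one -/
structure Cut (T : V →ₗ[ℂ] V) (x y : ι → (V →ₗ[ℂ] V)) (V₁ V₂ : Submodule ℂ V) : Prop where
  chn : Chn T x y
  cpl : IsCompl V₁ V₂
  ne1 : V₁ ≠ ⊥
  ne2 : V₂ ≠ ⊥
  x1 : ∀ i, ∀ v ∈ V₁, x i v ∈ V₁
  y1 : ∀ i, ∀ v ∈ V₁, y i v ∈ V₁
  x2 : ∀ i, ∀ v ∈ V₂, x i v ∈ V₂
  y2 : ∀ i, ∀ v ∈ V₂, y i v ∈ V₂
  dim : Module.finrank ℂ V = Fintype.card ι + 2

theorem Cut.symm {V₁ V₂ : Submodule ℂ V} (h : Cut T x y V₁ V₂) : Cut T x y V₂ V₁ :=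
  ⟨h.chn, h.cpl.symm, h.ne2, h.ne1, h.x2, h.y2, h.x1, h.y1, h.dim⟩

theorem Cut.card [FiniteDimensional ℂ V] {V₁ V₂ : Submodule ℂ V} (h : Cut T x y V₁ V₂) :
    Module.finrank ℂ V₁ = Nat.card (Fset x y V₁) + 1 ∧ Disjoint (Fset x y V₁) (Fset x y V₂) := by
  classical
  have b1 := h.chn.bound_one h.ne1 h.x1 h.y1
  have b2 := h.chn.bound_one h.ne2 h.x2 h.y2
  have hs := Submodule.finrank_add_eq_of_isCompl h.cpl
  have hu : Fset x y V₁ ∪ Fset x y V₂ = Set.univ := by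
    rw [Set.eq_univ_iff_forall]
    intro i
    by_contra hcon
    rw [Set.mem_union, not_or] at hcon
    obtain ⟨h1, h2⟩ := hcon
    obtain ⟨v, hv⟩ := h.chn.hne i
    obtain ⟨v1, hv1, v2, hv2, e⟩ := Submodule.mem_sup.mp
      (show v ∈ V₁ ⊔ V₂ by rw [h.cpl.sup_eq_top]; exact Submodule.mem_top)
    have e1 : x i (y i v1) = y i (x i v1) := by
      by_contra hc
      exact h1 ⟨v1, hv1, hc⟩
    have e2 : x i (y i v2) = y i (x i v2) := by
      by_contra hc
      exact h2 ⟨v2, hv2, hc⟩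
    apply hv
    rw [← e]
    simp only [map_add, e1, e2]
  have hc := Set.ncard_union_add_ncard_inter (Fset x y V₁) (Fset x y V₂)
  rw [hu, Set.ncard_univ, Nat.card_eq_fintype_card] at hc
  rw [Nat.card_coe_set_eq] at b1 b2 ⊢
  have hd := h.dim
  refine ⟨by omega, ?_⟩
  rw [Set.disjoint_iff_inter_eq_empty, ← Set.ncard_eq_zero]
  omega

/-- what commutes with the chain is a scalar on each half -/
theorem Cut.scl [FiniteDimensional ℂ V] {V₁ V₂ : Submodule ℂ V} (h : Cut T x y V₁ V₂)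
    (w : V →ₗ[ℂ] V) (hw : ∀ v ∈ V₁, w v ∈ V₁)
    (hwx : ∀ i ∈ Fset x y V₁, ∀ v ∈ V₁, w (x i v) = x i (w v))
    (hwy : ∀ i ∈ Fset x y V₁, ∀ v ∈ V₁, w (y i v) = y i (w v)) :
    ∃ c : ℂ, ∀ v ∈ V₁, w v = c • v := by
  by_contra hcon
  have h1 := h.chn.bound_two h.x1 h.y1 w hw hwx hwy hcon
  have h2 := h.card.1
  omega

/-- each `x i` is a scalar on one of the two halves -/
theorem Cut.x_scl [FiniteDimensional ℂ V] {V₁ V₂ : Submodule ℂ V} (h : Cut T x y V₁ V₂) (i : ι) :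
    (∃ c : ℂ, ∀ v ∈ V₁, x i v = c • v) ∨ ∃ c : ℂ, ∀ v ∈ V₂, x i v = c • v := by
  have key : ∀ {A B : Submodule ℂ V}, Cut T x y A B → i ∉ Fset x y A →
      ∃ c : ℂ, ∀ v ∈ A, x i v = c • v := by
    intro A B hc hi
    apply hc.scl (x i) (hc.x1 i)
    · intro j _ v _
      exact hc.chn.hx i j v
    · intro j hj v _
      apply hc.chn.hxy i j
      rintro rfl
      exact hi hj
  by_cases hi : i ∈ Fset x y V₁
  · exact Or.inr (key h.symm (Set.disjoint_left.mp h.card.2 hi))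
  · exact Or.inl (key h hi)

end

end Pool.Agent.Frm14
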