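import Mathlib
import Pool.Agent.Frm14.Two

/-! The case of equality: linear algebra. -/

namespace Pool.Agent.Frm14

open Pool.Agent.Conf14

variable {V : Type*} [AddCommGroup V] [Module ℂ V]

/-- the two eigenvalue case -/
theorem two_eig [FiniteDimensional ℂ V] {k : ℕ} {T : V →ₗ[ℂ] V} {g : ℕ → (V →ₗ[ℂ] V)}
    {V₁ V₂ : Submodule ℂ V} (hc : IsCompl V₁ V₂) (h1 : V₁ ≠ ⊥) (h2 : V₂ ≠ ⊥)
    (hst1 : ∀ w : V →ₗ[ℂ] V, (∀ v, T (w v) = w (T v)) → ∀ v ∈ V₁, w v ∈ V₁)
    (hst2 : ∀ w : V →ₗ[ℂ] V, (∀ v, T (w v) = w (T v)) → ∀ v ∈ V₂, w v ∈ V₂)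
    (hV : Module.finrank ℂ V = k + 2)
    (hbase : ∃ x : Fin k → (V →ₗ[ℂ] V), Chn T x (fun j => g (j + 1)))
    (hch : ∀ p, p ≤ k → 1 ≤ k → ∃ (x y : Fin k → (V →ₗ[ℂ] V)) (i : Fin k), Chn T x y ∧ x i = g p)
    (hnc : ∀ p, p + 1 ≤ k → ∃ v, g p (g (p + 1) v) ≠ g (p + 1) (g p v)) :
    ∃ c : ℂ, Module.finrank ℂ (LinearMap.range (T - c • LinearMap.id)) ≤ 1 := by
  classical
  have hcut : ∀ {x y : Fin k → (V →ₗ[ℂ] V)}, Chn T x y → Cut T x y V₁ V₂ := by
    intro x y h
    exact ⟨h, hc, h1, h2, fun i => hst1 _ (h.tx i), fun i => hst1 _ (h.ty i),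
      fun i => hst2 _ (h.tx i), fun i => hst2 _ (h.ty i), by rw [hV, Fintype.card_fin]⟩
  obtain ⟨x, hx⟩ := hbase
  have hC := hcut hx
  -- `T` is a scalar on each half
  have hT1 : ∃ c : ℂ, ∀ v ∈ V₁, T v = c • v :=
    hC.scl T (hst1 T fun _ => rfl) (fun i _ v _ => hx.tx i v) (fun i _ v _ => hx.ty i v)
  have hT2 : ∃ c : ℂ, ∀ v ∈ V₂, T v = c • v :=
    hC.symm.scl T (hst2 T fun _ => rfl) (fun i _ v _ => hx.tx i v) (fun i _ v _ => hx.ty i v)
  -- the end of the proof
  have fin : ∀ (A B : Submodule ℂ V), IsCompl A B → (∃ c : ℂ, ∀ v ∈ B, T v = c • v) →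
      (∀ v ∈ A, T v ∈ A) → Module.finrank ℂ A = 1 →
      ∃ c : ℂ, Module.finrank ℂ (LinearMap.range (T - c • LinearMap.id)) ≤ 1 := by
    intro A B hAB hB hA hdim
    obtain ⟨c, hc⟩ := hB
    refine ⟨c, ?_⟩
    rw [← hdim]
    apply Submodule.finrank_mono
    rintro _ ⟨v, rfl⟩
    obtain ⟨a, ha, b, hb, e⟩ := Submodule.mem_sup.mp
      (show v ∈ A ⊔ B by rw [hAB.sup_eq_top]; exact Submodule.mem_top)
    have : (T - c • LinearMap.id : V →ₗ[ℂ] V) v = T a - c • a := by
      rw [← e]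
      simp only [LinearMap.sub_apply, LinearMap.smul_apply, LinearMap.id_apply, map_add,
        hc b hb, smul_add]
      abel
    rw [this]
    exact A.sub_mem (hA a ha) (A.smul_mem _ ha)
  rcases Nat.eq_zero_or_pos k with hk | hk
  · -- no chain
    have h3 := hC.card.1
    have h4 : Nat.card (Fset x (fun j => g (j + 1)) V₁) = 0 := by
      rw [Nat.card_eq_zero]
      left
      rw [hk] at x
      exact ⟨fun i => by
        have := i.1.isLt
        omega⟩
    exact fin V₁ V₂ hc hT2 (hst1 T fun _ => rfl) (by rw [h3, h4])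
  · have hg : ∀ p, p ≤ k → (∃ c : ℂ, ∀ v ∈ V₁, g p v = c • v) ∨ ∃ c : ℂ, ∀ v ∈ V₂, g p v = c • v := by
      intro p hp
      obtain ⟨x', y', i, hxy, e⟩ := hch p hp hk
      rw [← e]
      exact (hcut hxy).x_scl i
    have hno : ∀ p, p + 1 ≤ k → ∀ (A B : Submodule ℂ V), IsCompl A B →
        (∀ v ∈ A, g (p + 1) v ∈ A) → (∀ v ∈ B, g p v ∈ B) →
        (∀ v ∈ A, g p v ∈ A) → (∀ v ∈ B, g (p + 1) v ∈ B) →
        (∃ c : ℂ, ∀ v ∈ A, g p v = c • v) → (∃ c : ℂ, ∀ v ∈ B, g (p + 1) v = c • v) → False := by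
      rintro p hp A B hAB s1 s2 s3 s4 ⟨c, hc⟩ ⟨d, hd⟩
      obtain ⟨v, hv⟩ := hnc p hp
      obtain ⟨a, ha, b, hb, e⟩ := Submodule.mem_sup.mp
        (show v ∈ A ⊔ B by rw [hAB.sup_eq_top]; exact Submodule.mem_top)
      apply hv
      rw [← e]
      simp only [map_add]
      rw [hc _ (s1 a ha), hc a ha, map_smul, hd b hb, map_smul, hd _ (s2 b hb)]
    have hTg : ∀ p, p ≤ k → ∀ v, T (g p v) = g p (T v) := by
      intro p hp v
      obtain ⟨x', y', i, hxy, e⟩ := hch p hp hk
      rw [← e]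
      exact hxy.tx i v
    have s1 : ∀ p, p ≤ k → ∀ v ∈ V₁, g p v ∈ V₁ := fun p hp => hst1 _ (hTg p hp)
    have s2 : ∀ p, p ≤ k → ∀ v ∈ V₂, g p v ∈ V₂ := fun p hp => hst2 _ (hTg p hp)
    -- propagation
    have prop : ∀ (A B : Submodule ℂ V), IsCompl A B →
        (∀ p, p ≤ k → ∀ v ∈ A, g p v ∈ A) → (∀ p, p ≤ k → ∀ v ∈ B, g p v ∈ B) →
        (∀ p, p ≤ k → (∃ c : ℂ, ∀ v ∈ A, g p v = c • v) ∨ ∃ c : ℂ, ∀ v ∈ B, g p v = c • v) →
        (∃ c : ℂ, ∀ v ∈ A, g 0 v = c • v) → ∀ p, p ≤ k → ∃ c : ℂ, ∀ v ∈ A, g p v = c • v := by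
      intro A B hAB sA sB hor h0 p
      induction p with
      | zero => exact fun _ => h0
      | succ p ih =>
          intro hp
          rcases hor (p + 1) hp with h | h
          · exact h
          · exact (hno p hp A B hAB (sA _ hp) (sB _ (by omega)) (sA _ (by omega)) (sB _ hp)
              (ih (by omega)) h).elim
    -- the half on which everything is a scalar is a line
    have line : ∀ (A B : Submodule ℂ V), Cut T x (fun j : Fin k => g (j + 1)) A B →
        (∀ p, p ≤ k → ∃ c : ℂ, ∀ v ∈ A, g p v = c • v) → Module.finrank ℂ A = 1 := by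
      intro A B hcut hA
      have h3 := hcut.card.1
      have h4 : Nat.card (Fset x (fun j : Fin k => g (j + 1)) A) = 0 := by
        rw [Nat.card_eq_zero]
        left
        refine ⟨fun ⟨i, v, hv, hne⟩ => hne ?_⟩
        obtain ⟨c, hc⟩ := hA (i + 1) (by
          have := i.isLt
          omega)
        rw [hc v hv, map_smul, hc _ (hcut.x1 i v hv)]
      rw [h3, h4]
    rcases hg 0 (Nat.zero_le _) with h0 | h0
    · have := prop V₁ V₂ hc s1 s2 hg h0
      exact fin V₁ V₂ hc hT2 (hst1 T fun _ => rfl) (line V₁ V₂ hC this)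
    · have := prop V₂ V₁ hc.symm s2 s1 (fun p hp => (hg p hp).symm) h0
      exact fin V₂ V₁ hc.symm hT1 (hst2 T fun _ => rfl) (line V₂ V₁ hC.symm this)

/-- a nilpotent endomorphism in the centraliser of a long chain has square zero -/
theorem sq_zero [FiniteDimensional ℂ V] {ι : Type*} [Fintype ι]
    {x y : ι → (V →ₗ[ℂ] V)} (n : V →ₗ[ℂ] V)
    (hx : ∀ i j v, x i (x j v) = x j (x i v))
    (hxy : ∀ i j, i ≠ j → ∀ v, x i (y j v) = y j (x i v))
    (hne : ∀ i, ∃ v, x i (y i v) ≠ y i (x i v))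
    (hnx : ∀ i v, n (x i v) = x i (n v)) (hny : ∀ i v, n (y i v) = y i (n v))
    (hn : IsNilpotent n) (hV : Module.finrank ℂ V ≤ Fintype.card ι + 2) : ∀ v, n (n v) = 0 := by
  classical
  by_contra hcon
  push Not at hcon
  obtain ⟨u, hu⟩ := hcon
  have := indep_gen x y (![LinearMap.id, n, n ∘ₗ n] : Fin 3 → (V →ₗ[ℂ] V))
    (fun _ : Unit => n ∘ₗ n) hx ?_ ?_ ?_ hxy hne ?_ ?_
  · rw [Fintype.card_fin] at this
    omega
  · intro i j v
    fin_cases i <;> fin_cases j <;> simp
  · intro i j v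
    fin_cases j <;> simp [hnx]
  · intro i j v
    fin_cases j <;> simp [hny]
  · intro _ h
    exact hu (LinearMap.congr_fun h u)
  · intro v hv
    have hv2 : n (n v) ≠ 0 := hv ()
    -- the index of nilpotency of `v`
    obtain ⟨N, hN⟩ := hn
    have hex : ∃ p, (n ^ p) v = 0 := ⟨N, by rw [hN, LinearMap.zero_apply]⟩
    obtain ⟨p, hp⟩ : ∃ p, p = Nat.find hex := ⟨_, rfl⟩
    have h1 : (n ^ p) v = 0 := by rw [hp]; exact Nat.find_spec hex
    have h2 : ∀ q, q < p → (n ^ q) v ≠ 0 := by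
      intro q hq
      rw [hp] at hq
      exact Nat.find_min hex hq
    have hp3 : 3 ≤ p := by
      by_contra hlt
      apply hv2
      have h3 : (n ^ 2) v = 0 := by
        have : n ^ 2 = n ^ (2 - p) * n ^ p := by
          rw [← pow_add]
          congr 1
          omega
        rw [this, Module.End.mul_apply, h1, map_zero]
      rwa [pow_two] at h3
    have hz : ∀ q, p ≤ q → (n ^ q) v = 0 := by
      intro q hq
      have : n ^ q = n ^ (q - p) * n ^ p := by
        rw [← pow_add]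
        congr 1
        omega
      rw [this, Module.End.mul_apply, h1, map_zero]
    rw [Fintype.linearIndependent_iff]
    intro c hc
    rw [Fin.sum_univ_three] at hc
    have e0 : c 0 • v + c 1 • n v + c 2 • n (n v) = 0 := hc
    have pw : ∀ q, c 0 • (n ^ q) v + c 1 • (n ^ (q + 1)) v + c 2 • (n ^ (q + 2)) v = 0 := by
      intro q
      have h3 := congrArg (n ^ q) e0
      rw [map_add, map_add, map_smul, map_smul, map_smul, map_zero] at h3
      have h4 : (n ^ q) (n v) = (n ^ (q + 1)) v := by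
        rw [pow_succ, Module.End.mul_apply]
      have h5 : (n ^ q) (n (n v)) = (n ^ (q + 2)) v := by
        rw [pow_succ, pow_succ, Module.End.mul_apply, Module.End.mul_apply]
      rwa [h4, h5] at h3
    have c0 : c 0 = 0 := by
      have h3 := pw (p - 1)
      rw [hz (p - 1 + 1) (by omega), hz (p - 1 + 2) (by omega), smul_zero, smul_zero, add_zero,
        add_zero] at h3
      exact (smul_eq_zero.mp h3).resolve_right (h2 _ (by omega))
    have c1 : c 1 = 0 := by
      have h3 := pw (p - 2)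
      rw [hz (p - 2 + 2) (by omega), smul_zero, add_zero, c0, zero_smul, zero_add] at h3
      exact (smul_eq_zero.mp h3).resolve_right (h2 _ (by omega))
    have c2 : c 2 = 0 := by
      have h3 := pw (p - 3)
      rw [c0, c1, zero_smul, zero_smul, zero_add, zero_add] at h3
      exact (smul_eq_zero.mp h3).resolve_right (h2 _ (by omega))
    intro i
    fin_cases i
    · exact c0
    · exact c1
    · exact c2

/-- in the one eigenvalue case every member of a long chain is a scalar on the image -/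
theorem img_scl [FiniteDimensional ℂ V] {k : ℕ} {x y : Fin k → (V →ₗ[ℂ] V)} (n : V →ₗ[ℂ] V)
    (hx : ∀ i j v, x i (x j v) = x j (x i v))
    (hxy : ∀ i j, i ≠ j → ∀ v, x i (y j v) = y j (x i v))
    (hne : ∀ i, ∃ v, x i (y i v) ≠ y i (x i v))
    (hnx : ∀ i v, n (x i v) = x i (n v)) (hny : ∀ i v, n (y i v) = y i (n v))
    (hn : ∀ v, n (n v) = 0) (hV : Module.finrank ℂ V ≤ k + 2) (i : Fin k) :
    ∃ c : ℂ, ∀ v, x i (n v) = c • n v := by
  classical
  by_contra hcon
  push Not at hcon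
  obtain ⟨σ, _, z, hz, hsep⟩ := exists_detect (x i) n hcon
  have hk : 0 < k := i.pos
  have := indep_gen (ι := {j : Fin k // j ≠ i}) (fun j => x j) (fun j => y j)
    (![LinearMap.id, n, x i, n ∘ₗ x i] : Fin 4 → (V →ₗ[ℂ] V)) z
    (fun a b v => hx a b v) ?_ ?_ ?_ (fun a b hab v => hxy a b (fun e => hab (Subtype.ext e)) v)
    (fun a => hne a) hz ?_
  · rw [Fintype.card_fin] at this
    have h2 : Fintype.card {j : Fin k // j ≠ i} = k - 1 := by
      simp
    omega
  · intro a b v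
    fin_cases a <;> fin_cases b <;> simp [hnx]
  · intro a b v
    fin_cases b <;> simp [hnx, hx a.1 i]
  · intro a b v
    fin_cases b <;> simp [hny, hxy i a.1 (fun e => a.2 e.symm)]
  · intro v hv
    obtain ⟨h0, h1⟩ := hsep v hv
    rw [Fintype.linearIndependent_iff]
    intro c hc
    rw [Fin.sum_univ_four] at hc
    have e0 : c 0 • v + c 1 • n v + c 2 • x i v + c 3 • n (x i v) = 0 := hc
    -- a relation between `n v` and `x i (n v)` is trivial
    have rel : ∀ a b : ℂ, a • n v + b • x i (n v) = 0 → a = 0 ∧ b = 0 := by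
      intro a b hab
      have hb : b = 0 := by
        by_contra hb
        apply h1 (-(b⁻¹ * a))
        have h3 : x i (n v) = b⁻¹ • (b • x i (n v)) := by
          rw [smul_smul, inv_mul_cancel₀ hb, one_smul]
        rw [h3, eq_neg_of_add_eq_zero_right hab, smul_neg, smul_smul, neg_smul]
      rw [hb, zero_smul, add_zero] at hab
      exact ⟨(smul_eq_zero.mp hab).resolve_right h0, hb⟩
    have h3 := congrArg n e0
    rw [map_add, map_add, map_add, map_smul, map_smul, map_smul, map_smul, map_zero, hn v,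
      hn (x i v), smul_zero, smul_zero, add_zero, add_zero, hnx] at h3
    obtain ⟨a0, a2⟩ := rel _ _ h3
    rw [a0, a2, zero_smul, zero_smul, zero_add, add_zero, hnx] at e0
    obtain ⟨a1, a3⟩ := rel _ _ e0
    intro j
    fin_cases j
    · exact a0
    · exact a1
    · exact a2
    · exact a3

/-- the one eigenvalue case -/
theorem one_eig [FiniteDimensional ℂ V] {k : ℕ} {T n : V →ₗ[ℂ] V} {l : ℂ}
    (hTn : ∀ v, T v = l • v + n v) (hnil : IsNilpotent n) {g : ℕ → (V →ₗ[ℂ] V)}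
    (hV : Module.finrank ℂ V = k + 2)
    (hbase : ∃ x : Fin k → (V →ₗ[ℂ] V), Chn T x (fun j => g (j + 1)))
    (hch : ∀ p, p ≤ k → 1 ≤ k → ∃ (x y : Fin k → (V →ₗ[ℂ] V)) (i : Fin k), Chn T x y ∧ x i = g p) :
    Module.finrank ℂ (LinearMap.range n) ≤ 1 := by
  classical
  by_cases hn0 : n = 0
  · rw [hn0, LinearMap.range_zero, finrank_bot]
    omega
  have hcomm : ∀ w : V →ₗ[ℂ] V, (∀ v, T (w v) = w (T v)) → ∀ v, n (w v) = w (n v) := by
    intro w hw v
    have h1 := hw v
    rw [hTn, hTn, map_add, map_smul] at h1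
    exact add_left_cancel h1
  obtain ⟨x, hx⟩ := hbase
  have hsq : ∀ v, n (n v) = 0 := sq_zero n hx.hx hx.hxy hx.hne
    (fun i => hcomm _ (hx.tx i)) (fun i => hcomm _ (hx.ty i)) hnil (by rw [hV, Fintype.card_fin])
  have hxs : ∀ i, ∃ c : ℂ, ∀ v, x i (n v) = c • n v := fun i =>
    img_scl n hx.hx hx.hxy hx.hne (fun i => hcomm _ (hx.tx i)) (fun i => hcomm _ (hx.ty i)) hsq
      hV.le i
  have hgs : ∀ p, p ≤ k → 1 ≤ k → ∃ c : ℂ, ∀ v, g p (n v) = c • n v := by
    intro p hp hk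
    obtain ⟨x', y', i, hc, e⟩ := hch p hp hk
    rw [← e]
    exact img_scl n hc.hx hc.hxy hc.hne (fun i => hcomm _ (hc.tx i)) (fun i => hcomm _ (hc.ty i))
      hsq hV.le i
  have hys : ∀ i : Fin k, ∃ c : ℂ, ∀ v, g (i + 1) (n v) = c • n v := fun i =>
    hgs _ (by have := i.isLt; omega) (by have := i.isLt; omega)
  -- a generic functional
  obtain ⟨v0, hv0⟩ : ∃ v, n v ≠ 0 := by
    by_contra hcon
    push Not at hcon
    exact hn0 (LinearMap.ext hcon)
  choose u hu using hx.hne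
  obtain ⟨θ, hθ⟩ := exists_vec (fun i : Option (Fin k) => match i with
    | none => Module.Dual.eval ℂ V (n v0)
    | some i => Module.Dual.eval ℂ V (x i (g (i + 1) (u i)) - g (i + 1) (x i (u i)))) (by
      have key : ∀ w : V, w ≠ 0 → Module.Dual.eval ℂ V w ≠ 0 := by
        intro w hw h
        apply hw
        rw [← Module.forall_dual_apply_eq_zero_iff ℂ]
        intro f
        exact LinearMap.congr_fun h f
      intro i
      cases i with
      | none => exact key _ hv0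
      | some i => exact key _ (sub_ne_zero.mpr (hu i)))
  have hθ0 : θ (n v0) ≠ 0 := hθ none
  have hθi : ∀ i : Fin k, θ (x i (g (i + 1) (u i)) - g (i + 1) (x i (u i))) ≠ 0 :=
    fun i => hθ (some i)
  let H : Submodule ℂ V := LinearMap.range n ⊓ LinearMap.ker θ
  have hst : ∀ w : V →ₗ[ℂ] V, (∃ c : ℂ, ∀ v, w (n v) = c • n v) → H ≤ H.comap w := by
    rintro w ⟨c, hc⟩ _ ⟨⟨v, rfl⟩, hv⟩
    show w (n v) ∈ H
    rw [hc]
    exact H.smul_mem _ ⟨⟨v, rfl⟩, hv⟩
  have hnst : H ≤ H.comap n := hst n ⟨0, fun v => by rw [hsq, zero_smul]⟩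
  have hq := two_more (V := V ⧸ H) (fun i => H.mapQ H (x i) (hst _ (hxs i)))
    (fun i : Fin k => H.mapQ H (g (i + 1)) (hst _ (hys i))) (H.mapQ H n hnst)
    ?_ ?_ ?_ ?_ ?_ ?_
  · have h1 := H.finrank_quotient_add_finrank
    rw [Fintype.card_fin] at hq
    have h2 : Module.finrank ℂ H = 0 := by omega
    have h3 : H = ⊥ := Submodule.finrank_eq_zero.mp h2
    -- `θ` is injective on the image
    have h4 : Function.Injective (θ.domRestrict (LinearMap.range n)) := by
      rw [injective_iff_map_eq_zero]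
      intro w hw
      have : (w : V) ∈ H := ⟨w.2, hw⟩
      rw [h3, Submodule.mem_bot] at this
      exact Subtype.ext this
    have h5 := LinearMap.finrank_le_finrank_of_injective h4
    rwa [Module.finrank_self] at h5
  · intro i j v
    obtain ⟨v, rfl⟩ := Submodule.Quotient.mk_surjective _ v
    exact congrArg (Submodule.Quotient.mk (p := H)) (hx.hx i j v)
  · intro i j hij v
    obtain ⟨v, rfl⟩ := Submodule.Quotient.mk_surjective _ v
    exact congrArg (Submodule.Quotient.mk (p := H)) (hx.hxy i j hij v)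
  · intro i
    refine ⟨Submodule.Quotient.mk (u i), fun he => ?_⟩
    have h1 : x i (g (i + 1) (u i)) - g (i + 1) (x i (u i)) ∈ H :=
      (Submodule.Quotient.eq H).mp he
    exact hθi i h1.2
  · intro i v
    obtain ⟨v, rfl⟩ := Submodule.Quotient.mk_surjective _ v
    exact congrArg (Submodule.Quotient.mk (p := H)) (hcomm _ (hx.tx i) v)
  · intro i v
    obtain ⟨v, rfl⟩ := Submodule.Quotient.mk_surjective _ v
    exact congrArg (Submodule.Quotient.mk (p := H)) (hcomm _ (hx.ty i) v)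
  · rintro ⟨c, hc⟩
    have h1 : n v0 - c • v0 ∈ H := (Submodule.Quotient.eq H).mp (hc (Submodule.Quotient.mk v0))
    by_cases hc0 : c = 0
    · rw [hc0, zero_smul, sub_zero] at h1
      exact hθ0 h1.2
    · -- then `v0` is in the image
      obtain ⟨w, hw⟩ := h1.1
      have h2 := congrArg n hw
      rw [hsq, map_sub, map_smul, hsq, zero_sub] at h2
      have h3 : c • n v0 = 0 := by rw [← neg_eq_zero, ← h2]
      exact hv0 ((smul_eq_zero.mp h3).resolve_left hc0)

/-- The case of equality. `g p` are the twists of the neighbouring strands, `T` is the full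
twist of the `k + 2` strands, the chains are those of the full twists of the initial segments. -/
theorem equality [FiniteDimensional ℂ V] {k : ℕ} (hV : Module.finrank ℂ V = k + 2)
    (T : V →ₗ[ℂ] V) (g : ℕ → (V →ₗ[ℂ] V))
    (hbase : ∃ x : Fin k → (V →ₗ[ℂ] V), Chn T x (fun j => g (j + 1)))
    (hch : ∀ p, p ≤ k → 1 ≤ k → ∃ (x y : Fin k → (V →ₗ[ℂ] V)) (i : Fin k), Chn T x y ∧ x i = g p)
    (hnc : ∀ p, p + 1 ≤ k → ∃ v, g p (g (p + 1) v) ≠ g (p + 1) (g p v)) :
    ∃ c : ℂ, Module.finrank ℂ (LinearMap.range (T - c • LinearMap.id)) ≤ 1 := by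
  classical
  haveI : Nontrivial V := Module.nontrivial_of_finrank_pos (R := ℂ) (by omega)
  obtain ⟨l, hl⟩ := Module.End.exists_eigenvalue (T : Module.End ℂ V)
  obtain ⟨w, hw⟩ := hl.exists_hasEigenvector
  let f : V →ₗ[ℂ] V := T - l • LinearMap.id
  have hf : ∀ v, f v = T v - l • v := fun _ => rfl
  obtain ⟨N, hN1, hN⟩ : ∃ N, 1 ≤ N ∧ IsCompl (LinearMap.ker (f ^ N)) (LinearMap.range (f ^ N)) := by
    obtain ⟨N, hN⟩ := Filter.eventually_atTop.mp (f.eventually_isCompl_ker_pow_range_pow)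
    exact ⟨max N 1, le_max_right _ _, hN _ (le_max_left _ _)⟩
  have hcomm : ∀ w : V →ₗ[ℂ] V, (∀ v, T (w v) = w (T v)) → ∀ (N : ℕ) v,
      (f ^ N) (w v) = w ((f ^ N) v) := by
    intro w hw N
    induction N with
    | zero => exact fun v => rfl
    | succ N ih =>
        intro v
        rw [pow_succ, Module.End.mul_apply, Module.End.mul_apply, hf, hw, ← map_smul, ← map_sub,
          ← hf, ih]
  by_cases h2 : LinearMap.range (f ^ N) = ⊥
  · -- one eigenvalue
    have hnil : IsNilpotent f := ⟨N, LinearMap.range_eq_bot.mp h2⟩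
    refine ⟨l, one_eig (T := T) (n := f) (l := l) (fun v => ?_) hnil hV hbase hch⟩
    rw [hf]
    abel
  · refine two_eig hN ?_ h2 ?_ ?_ hV hbase hch hnc
    · intro h1
      have h3 : w ∈ LinearMap.ker (f ^ N) := by
        obtain ⟨M, rfl⟩ : ∃ M, N = M + 1 := ⟨N - 1, by omega⟩
        rw [LinearMap.mem_ker, pow_succ, Module.End.mul_apply, hf,
          show T w = l • w from Module.End.mem_eigenspace_iff.mp hw.1, sub_self, map_zero]
      rw [h1, Submodule.mem_bot] at h3
      exact hw.2 h3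
    · intro w hw v hv
      rw [LinearMap.mem_ker] at hv ⊢
      rw [hcomm w hw, hv, map_zero]
    · rintro w hw _ ⟨v, rfl⟩
      exact ⟨w v, hcomm w hw N v⟩

end Pool.Agent.Frm14
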