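import Mathlib
import Pool.Agent.Conf14.Rel

/-! Full twists of initial segments in a family satisfying the pure braid relations. -/

namespace Pool.Agent.Frm14

open Pool.Agent.Conf14

variable {G : Type*} [Group G]

/-- the pure braid relations for a family indexed by natural numbers, below `n` -/
structure PBN (n : ℕ) (a : ℕ → ℕ → G) : Prop where
  t1 : ∀ i j k, i < j → j < k → k < n → Commute (a i j * a i k * a j k) (a i k)
  t2 : ∀ i j k, i < j → j < k → k < n → Commute (a i j * a i k * a j k) (a j k)
  q1 : ∀ i j k l, i < j → j < k → k < l → l < n → Commute (a i j) (a k l)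
  q2 : ∀ i j k l, i < j → j < k → k < l → l < n → Commute (a i l) (a j k)
  q3 : ∀ i j k l, i < j → j < k → k < l → l < n → Commute (a k l * a i k * (a k l)⁻¹) (a j l)

/-- the extension by `1` to natural numbers -/
def ex {n : ℕ} (a : Fin n → Fin n → G) (i j : ℕ) : G :=
  if h : i < n ∧ j < n then a ⟨i, h.1⟩ ⟨j, h.2⟩ else 1

theorem ex_eq {n : ℕ} (a : Fin n → Fin n → G) {i j : ℕ} (hi : i < n) (hj : j < n) :
    ex a i j = a ⟨i, hi⟩ ⟨j, hj⟩ := dif_pos ⟨hi, hj⟩

theorem pbn_ex {n : ℕ} {a : Fin n → Fin n → G} (h : PB a) : PBN n (ex a) := by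
  constructor
  · intro i j k h1 h2 h3
    rw [ex_eq a (by omega) (by omega), ex_eq a (by omega) (by omega), ex_eq a (by omega) (by omega)]
    exact h.t1 _ _ _ (Fin.lt_def.mpr h1) (Fin.lt_def.mpr h2)
  · intro i j k h1 h2 h3
    rw [ex_eq a (by omega) (by omega), ex_eq a (by omega) (by omega), ex_eq a (by omega) (by omega)]
    exact h.t2 _ _ _ (Fin.lt_def.mpr h1) (Fin.lt_def.mpr h2)
  · intro i j k l h1 h2 h3 h4
    rw [ex_eq a (by omega) (by omega), ex_eq a (by omega) (by omega)]
    exact h.q1 _ _ _ _ (Fin.lt_def.mpr h1) (Fin.lt_def.mpr h2) (Fin.lt_def.mpr h3)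
  · intro i j k l h1 h2 h3 h4
    rw [ex_eq a (by omega) (by omega), ex_eq a (by omega) (by omega)]
    exact h.q2 _ _ _ _ (Fin.lt_def.mpr h1) (Fin.lt_def.mpr h2) (Fin.lt_def.mpr h3)
  · intro i j k l h1 h2 h3 h4
    rw [ex_eq a (by omega) (by omega), ex_eq a (by omega) (by omega), ex_eq a (by omega) (by omega)]
    exact h.q3 _ _ _ _ (Fin.lt_def.mpr h1) (Fin.lt_def.mpr h2) (Fin.lt_def.mpr h3)

/-- the product of `a m l` for `m` from `s` to `s + u - 1` -/
def cr (a : ℕ → ℕ → G) (s : ℕ) : ℕ → ℕ → G
  | 0, _ => 1
  | u + 1, l => cr a s u l * a (s + u) l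

/-- the full twist of the strands below `k` -/
def tw (a : ℕ → ℕ → G) : ℕ → G
  | 0 => 1
  | k + 1 => tw a k * cr a 0 k k

theorem cr_zero (a : ℕ → ℕ → G) (s l : ℕ) : cr a s 0 l = 1 := rfl

theorem cr_succ (a : ℕ → ℕ → G) (s u l : ℕ) : cr a s (u + 1) l = cr a s u l * a (s + u) l := rfl

theorem tw_succ (a : ℕ → ℕ → G) (k : ℕ) : tw a (k + 1) = tw a k * cr a 0 k k := rfl

theorem tw_two (a : ℕ → ℕ → G) : tw a 2 = a 0 1 := by
  simp [tw, cr]

theorem cr_add (a : ℕ → ℕ → G) (s u v l : ℕ) :
    cr a s (u + v) l = cr a s u l * cr a (s + u) v l := by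
  induction v with
  | zero => rw [add_zero, cr_zero, mul_one]
  | succ v ih => rw [← add_assoc, cr_succ, ih, cr_succ, mul_assoc, add_assoc]

/-- an element commuting with the factors commutes with the product -/
theorem comm_cr {a : ℕ → ℕ → G} {g : G} {s u l : ℕ}
    (h : ∀ m, s ≤ m → m < s + u → Commute g (a m l)) : Commute g (cr a s u l) := by
  induction u with
  | zero => exact Commute.one_right g
  | succ u ih =>
      rw [cr_succ]
      exact (ih fun m h1 h2 => h m h1 (by omega)).mul_right (h _ (by omega) (by omega))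

theorem cr_congr {a b : ℕ → ℕ → G} {s u l : ℕ} (h : ∀ m, s ≤ m → m < s + u → a m l = b m l) :
    cr a s u l = cr b s u l := by
  induction u with
  | zero => rfl
  | succ u ih =>
      rw [cr_succ, cr_succ, ih fun m h1 h2 => h m h1 (by omega), h _ (by omega) (by omega)]

theorem tw_congr {a b : ℕ → ℕ → G} {k : ℕ} (h : ∀ i j, i < j → j < k → a i j = b i j) :
    tw a k = tw b k := by
  induction k with
  | zero => rfl
  | succ k ih =>
      rw [tw_succ, tw_succ, ih fun i j h1 h2 => h i j h1 (by omega),
        cr_congr fun m _ h2 => h m k (by omega) (by omega)]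

theorem comm_conj {g x m : G} (h : Commute (x * g * x⁻¹) m) : Commute g (x⁻¹ * m * x) := by
  have h' : x * g * x⁻¹ * m = m * (x * g * x⁻¹) := h
  show g * (x⁻¹ * m * x) = x⁻¹ * m * x * g
  calc g * (x⁻¹ * m * x) = x⁻¹ * (x * g * x⁻¹ * m) * x := by group
    _ = _ := by rw [h']; group

theorem comm_conj' {g x m : G} (h : Commute g (x⁻¹ * m * x)) : Commute (x * g * x⁻¹) m := by
  have h' : g * (x⁻¹ * m * x) = x⁻¹ * m * x * g := h
  show x * g * x⁻¹ * m = m * (x * g * x⁻¹)
  calc x * g * x⁻¹ * m = x * (g * (x⁻¹ * m * x)) * x⁻¹ := by group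
    _ = _ := by rw [h']; group

variable {n : ℕ} {a : ℕ → ℕ → G}

theorem PBN.t0 (h : PBN n a) {i j k : ℕ} (hij : i < j) (hjk : j < k) (hk : k < n) :
    Commute (a i j * a i k * a j k) (a i j) := by
  have h1 := h.t1 i j k hij hjk hk
  have h2 := h.t2 i j k hij hjk hk
  have h3 : Commute (a i j * a i k * a j k) (a i j * (a i k * a j k)) := by
    rw [← mul_assoc]
  exact g_comm h3 (h1.mul_right h2)

/-- the cyclic form of the triangle relation -/
theorem PBN.cyc (h : PBN n a) {i j k : ℕ} (hij : i < j) (hjk : j < k) (hk : k < n) :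
    a i j * a i k * a j k = a i k * a j k * a i j ∧
      a i j * a i k * a j k = a j k * a i j * a i k := by
  have h0 : a i j * a i k * a j k * a i j = a i j * (a i j * a i k * a j k) := h.t0 hij hjk hk
  have h2 : a i j * a i k * a j k * a j k = a j k * (a i j * a i k * a j k) := h.t2 i j k hij hjk hk
  constructor
  · apply mul_left_cancel (a := a i j)
    rw [← h0]
    group
  · apply mul_right_cancel (b := a j k)
    rw [h2]
    group

/-- a generator on strands below `k` commutes with the loop of a later strand around them -/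
theorem PBN.comm_col (h : PBN n a) {i j k l : ℕ} (hij : i < j) (hjk : j < k) (hkl : k ≤ l)
    (hl : l < n) : Commute (a i j) (cr a 0 k l) := by
  have e : k = i + (1 + ((j - i - 1) + (1 + (k - j - 1)))) := by omega
  rw [e, cr_add, cr_add, cr_add, cr_add]
  have e1 : 0 + i = i := by omega
  have e2 : 0 + i + 1 = i + 1 := by omega
  have e3 : 0 + i + 1 + (j - i - 1) = j := by omega
  have e4 : 0 + i + 1 + (j - i - 1) + 1 = j + 1 := by omega
  have c1 : ∀ s, cr a s 1 l = a s l := by
    intro s
    rw [cr_succ, cr_zero, one_mul, add_zero]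
  rw [e4, e3, e2, e1, c1, c1]
  have hP : Commute (a i j) (cr a 0 i l) := comm_cr fun m _ hm =>
    (h.q2 m i j l (by omega) hij (by omega) hl).symm
  have hF : Commute (a i j) (cr a (j + 1) (k - j - 1) l) := comm_cr fun m h1 h2 =>
    h.q1 i j m l hij (by omega) (by omega) hl
  have hM : Commute (a j l * a i j * (a j l)⁻¹) (cr a (i + 1) (j - i - 1) l) :=
    comm_cr fun m h1 h2 => h.q3 i m j l (by omega) (by omega) (by omega) hl
  obtain ⟨M, hMe⟩ : ∃ M, M = cr a (i + 1) (j - i - 1) l := ⟨_, rfl⟩
  rw [← hMe] at hM ⊢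
  have hM' := comm_conj hM
  have hT : Commute (a i j) (a i l * a j l) := by
    have h1 := h.t0 hij (show j < l by omega) hl
    have h2 : Commute (a i j) (a i j * (a i l * a j l)) := by
      rw [← mul_assoc]
      exact h1.symm
    have h3 : a i l * a j l = (a i j)⁻¹ * (a i j * (a i l * a j l)) := by group
    rw [h3]
    exact (Commute.refl (a i j)).inv_right.mul_right h2
  have key : Commute (a i j) (a i l * (M * (a j l * cr a (j + 1) (k - j - 1) l))) := by
    have e5 : a i l * (M * (a j l * cr a (j + 1) (k - j - 1) l)) =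
        (a i l * a j l) * ((a j l)⁻¹ * M * a j l) * cr a (j + 1) (k - j - 1) l := by group
    rw [e5]
    exact (hT.mul_right hM').mul_right hF
  exact hP.mul_right key

/-- the triangle relation for an initial block and two strands -/
theorem PBN.block (h : PBN n a) {s p q : ℕ} (hs : s ≤ p) (hpq : p < q) (hq : q < n) :
    cr a 0 s p * cr a 0 s q * a p q = cr a 0 s q * a p q * cr a 0 s p ∧
      cr a 0 s p * cr a 0 s q * a p q = a p q * cr a 0 s p * cr a 0 s q := by
  induction s with
  | zero => simp [cr_zero]
  | succ s ih =>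
      obtain ⟨i1, i2⟩ := ih (by omega)
      obtain ⟨c1, c2⟩ := h.cyc (show s < p by omega) hpq hq
      rw [cr_succ, cr_succ, zero_add]
      obtain ⟨A, hA⟩ : ∃ A, A = cr a 0 s p := ⟨_, rfl⟩
      obtain ⟨B, hB⟩ : ∃ B, B = cr a 0 s q := ⟨_, rfl⟩
      obtain ⟨x, hx⟩ : ∃ x, x = a p q := ⟨_, rfl⟩
      obtain ⟨u, hu⟩ : ∃ u, u = a s p := ⟨_, rfl⟩
      obtain ⟨v, hv⟩ : ∃ v, v = a s q := ⟨_, rfl⟩
      have hBu : Commute B u := by
        rw [hB, hu]
        exact (comm_cr fun m _ hm =>
          (h.q2 m s p q (by omega) (by omega) hpq hq).symm).symm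
      have hAv : Commute (x * A * x⁻¹) v := by
        have h1 : Commute v (x * A * x⁻¹) := by
          have h2 : Commute (x⁻¹ * v * x) A := by
            rw [hA]
            apply comm_cr
            intro m _ hm
            have h3 := h.q3 m s p q (by omega) (by omega) hpq hq
            rw [← hx, ← hv] at h3
            exact (comm_conj h3).symm
          exact (comm_conj' h2.symm).symm
        exact h1.symm
      rw [← hA, ← hB, ← hx] at i1 i2
      rw [← hu, ← hv, ← hx] at c1 c2
      rw [← hA, ← hB, ← hx, ← hu, ← hv]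
      have hBu' : B * u = u * B := hBu
      have hAv' : x * A * x⁻¹ * v = v * (x * A * x⁻¹) := hAv
      constructor
      · calc A * u * (B * v) * x = A * (u * B) * v * x := by group
          _ = A * B * (u * v * x) := by rw [← hBu']; group
          _ = A * B * (x * u * v) := by rw [c2]
          _ = (A * B * x) * (u * v) := by group
          _ = B * (x * A * x⁻¹) * (x * u * v) := by rw [i1]; group
          _ = B * (x * A * x⁻¹) * (u * v * x) := by rw [c2]
          _ = B * (x * A * x⁻¹) * (v * x * u) := by rw [c1]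
          _ = B * (x * A * x⁻¹ * v) * x * u := by group
          _ = B * v * x * (A * u) := by rw [hAv']; group
      · calc A * u * (B * v) * x = A * (u * B) * v * x := by group
          _ = A * B * (u * v * x) := by rw [← hBu']; group
          _ = A * B * (x * u * v) := by rw [c2]
          _ = (A * B * x) * (u * v) := by group
          _ = x * A * (B * u) * v := by rw [i2]; group
          _ = x * (A * u) * (B * v) := by rw [hBu']; group

/-- the full twist of the first `i` strands commutes with the loops of the later ones -/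
theorem PBN.tw_col (h : PBN n a) {i k l : ℕ} (hik : i ≤ k) (hkl : k ≤ l) (hl : l < n) :
    Commute (tw a i) (cr a 0 k l) := by
  induction i with
  | zero => exact Commute.one_left _
  | succ i ih =>
      rw [tw_succ]
      refine (ih (by omega)).mul_left ?_
      exact (comm_cr fun m _ hm => (h.comm_col (by omega) (by omega) hkl hl).symm).symm

theorem PBN.tw_tw (h : PBN n a) {i j : ℕ} (hi : i ≤ n) (hj : j ≤ n) :
    Commute (tw a i) (tw a j) := by
  have key : ∀ j i, i ≤ j → j ≤ n → Commute (tw a i) (tw a j) := by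
    intro j
    induction j with
    | zero =>
        intro i hi _
        rw [show i = 0 by omega]
    | succ j ih =>
        intro i hi hj
        rcases Nat.lt_or_ge i (j + 1) with h1 | h1
        · rw [tw_succ]
          exact (ih i (by omega) (by omega)).mul_right
            (h.tw_col (by omega) (le_refl _) (by omega))
        · rw [show i = j + 1 by omega]
  rcases Nat.le_total i j with h1 | h1
  · exact key j i h1 hj
  · exact (key i j h1 hi).symm

/-- strands outside -/
theorem PBN.tw_out (h : PBN n a) {i p q : ℕ} (hi : i ≤ p) (hpq : p < q) (hq : q < n) :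
    Commute (tw a i) (a p q) := by
  induction i with
  | zero => exact Commute.one_left _
  | succ i ih =>
      rw [tw_succ]
      refine (ih (by omega)).mul_left ?_
      exact (comm_cr fun m _ hm => (h.q1 m i p q (by omega) (by omega) hpq hq).symm).symm

/-- neighbouring strands inside -/
theorem PBN.tw_in (h : PBN n a) {p j : ℕ} (hp : p + 1 < j) (hj : j ≤ n) :
    Commute (tw a j) (a p (p + 1)) := by
  induction j with
  | zero => omega
  | succ j ih =>
      rcases Nat.lt_or_ge (p + 1) j with h1 | h1
      · rw [tw_succ]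
        exact (ih h1 (by omega)).mul_left (h.comm_col (by omega) h1 (le_refl _) (by omega)).symm
      · obtain rfl : j = p + 1 := by omega
        rw [tw_succ, tw_succ, mul_assoc]
        refine (h.tw_out (le_refl _) (by omega) (by omega)).mul_left ?_
        rw [cr_succ, zero_add, ← mul_assoc]
        obtain ⟨-, h2⟩ := h.block (le_refl p) (show p < p + 1 by omega) (by omega)
        show cr a 0 p p * cr a 0 p (p + 1) * a p (p + 1) * a p (p + 1) =
          a p (p + 1) * (cr a 0 p p * cr a 0 p (p + 1) * a p (p + 1))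
        nth_rw 1 [h2]
        group

end Pool.Agent.Frm14
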