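import Mathlib
import Pool.Agent.Frm14.Tw

/-! Exchanging two neighbouring strands. -/

namespace Pool.Agent.Frm14

open Pool.Agent.Conf14

variable {G : Type*} [Group G] {n : ℕ} {a : ℕ → ℕ → G}

/-- crossing chords, third form -/
theorem PBN.r3 (h : PBN n a) {i j k l : ℕ} (hij : i < j) (hjk : j < k) (hkl : k < l) (hl : l < n) :
    Commute (a i k) (a j k * a j l * (a j k)⁻¹) := by
  have h1 := comm_conj (h.q3 i j k l hij hjk hkl hl)
  obtain ⟨c1, c2⟩ := h.cyc hjk hkl hl
  have e : (a k l)⁻¹ * a j l * a k l = a j k * a j l * (a j k)⁻¹ := by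
    have e1 : a j l * a k l = a k l * a j k * a j l * (a j k)⁻¹ := by
      rw [← c2, c1]
      group
    calc (a k l)⁻¹ * a j l * a k l = (a k l)⁻¹ * (a j l * a k l) := by group
      _ = _ := by rw [e1]; group
  rwa [e] at h1

/-- crossing chords, second form -/
theorem PBN.r2 (h : PBN n a) {i j k l : ℕ} (hij : i < j) (hjk : j < k) (hkl : k < l) (hl : l < n) :
    Commute (a i j * a i k * (a i j)⁻¹) (a j l) := by
  have h1 := comm_conj (h.r3 hij hjk hkl hl).symm
  obtain ⟨c1, c2⟩ := h.cyc hij hjk (show k < n by omega)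
  have e : (a j k)⁻¹ * a i k * a j k = a i j * a i k * (a i j)⁻¹ := by
    have e1 : a i k * a j k = a j k * a i j * a i k * (a i j)⁻¹ := by
      rw [← c2, c1]
      group
    calc (a j k)⁻¹ * a i k * a j k = (a j k)⁻¹ * (a i k * a j k) := by group
      _ = _ := by rw [e1]; group
  rw [e] at h1
  exact h1.symm

/-- the family in which the strands `p` and `p + 1` have been exchanged -/
def sw (a : ℕ → ℕ → G) (p i j : ℕ) : G :=
  if j = p then a i (p + 1)
  else if j = p + 1 then (if i = p then a p (p + 1) else a p (p + 1) * a i p * (a p (p + 1))⁻¹)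
  else if i = p then a (p + 1) j
  else if i = p + 1 then a p (p + 1) * a p j * (a p (p + 1))⁻¹
  else a i j

theorem sw_j {p i : ℕ} : sw a p i p = a i (p + 1) := by simp [sw]

theorem sw_x {p : ℕ} : sw a p p (p + 1) = a p (p + 1) := by simp [sw]

theorem sw_j1 {p i : ℕ} (h : i ≠ p) :
    sw a p i (p + 1) = a p (p + 1) * a i p * (a p (p + 1))⁻¹ := by simp [sw, h]

theorem sw_i {p j : ℕ} (h1 : j ≠ p) (h2 : j ≠ p + 1) : sw a p p j = a (p + 1) j := by
  simp [sw, h1, h2]

theorem sw_i1 {p j : ℕ} (h1 : j ≠ p) (h2 : j ≠ p + 1) :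
    sw a p (p + 1) j = a p (p + 1) * a p j * (a p (p + 1))⁻¹ := by
  simp [sw, h1, h2]

theorem sw_o {p i j : ℕ} (h1 : j ≠ p) (h2 : j ≠ p + 1) (h3 : i ≠ p) (h4 : i ≠ p + 1) :
    sw a p i j = a i j := by
  simp [sw, h1, h2, h3, h4]

/-- the strand with the unchanged chords -/
def sl (p i : ℕ) : ℕ := if i = p then p + 1 else if i = p + 1 then p else i

theorem conj_comm {x u v : G} (h : Commute u v) : Commute (x * u * x⁻¹) (x * v * x⁻¹) := by
  have h' : u * v = v * u := h
  show x * u * x⁻¹ * (x * v * x⁻¹) = x * v * x⁻¹ * (x * u * x⁻¹)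
  calc x * u * x⁻¹ * (x * v * x⁻¹) = x * (u * v) * x⁻¹ := by group
    _ = _ := by rw [h']; group

theorem conj_of_comm {x u : G} (h : Commute x u) : x * u * x⁻¹ = u := by
  have h' : x * u = u * x := h
  rw [h']
  group

/-- neighbouring strands and two others -/
theorem PBN.x_comm (h : PBN n a) {p i j : ℕ} (hp : p + 1 < n) (hij : i < j) (hj : j < n)
    (h1 : j ≠ p) (h2 : j ≠ p + 1) (h3 : i ≠ p) (h4 : i ≠ p + 1) :
    Commute (a p (p + 1)) (a i j) := by
  rcases lt_or_gt_of_ne h1 with h5 | h5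
  · exact (h.q1 i j p (p + 1) hij h5 (by omega) hp).symm
  · have h6 : p + 1 < j := by omega
    rcases lt_or_gt_of_ne h3 with h7 | h7
    · exact (h.q2 i p (p + 1) j h7 (by omega) h6 hj).symm
    · exact h.q1 p (p + 1) i j (by omega) (by omega) hij hj

/-- if `p` does not occur then the exchanged family is conjugate to the old one with `p` in
place of `p + 1`; if `p + 1` does not occur it is the old one with `p + 1` in place of `p` -/
theorem PBN.sw_lift (h : PBN n a) {p : ℕ} (hp : p + 1 < n) {i j : ℕ} (hij : i < j) (hj : j < n) :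
    ((i ≠ p + 1 ∧ j ≠ p + 1) → sw a p i j = a (sl p i) (sl p j) ∧ sl p i < sl p j ∧ sl p j < n) ∧
    ((i ≠ p ∧ j ≠ p) → sw a p i j = a p (p + 1) * a (sl p i) (sl p j) * (a p (p + 1))⁻¹ ∧
      sl p i < sl p j ∧ sl p j < n) := by
  constructor
  · rintro ⟨h1, h2⟩
    by_cases h3 : j = p
    · subst h3
      rw [sw_j]
      simp only [sl, if_neg h1, if_neg (show i ≠ j by omega), if_true]
      exact ⟨trivial, by omega, by omega⟩
    · by_cases h4 : i = p
      · subst h4
        rw [sw_i h3 h2]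
        simp only [sl, if_neg h2, if_neg h3, if_true]
        exact ⟨trivial, by omega, by omega⟩
      · rw [sw_o h3 h2 h4 h1]
        simp only [sl, if_neg h1, if_neg h2, if_neg h3, if_neg h4]
        exact ⟨trivial, by omega, by omega⟩
  · rintro ⟨h1, h2⟩
    by_cases h3 : j = p + 1
    · subst h3
      rw [sw_j1 h1]
      simp only [sl, if_neg h1, if_neg (show i ≠ p + 1 by omega), if_neg (show p + 1 ≠ p by omega),
        if_true]
      exact ⟨trivial, by omega, by omega⟩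
    · by_cases h4 : i = p + 1
      · subst h4
        rw [sw_i1 h2 h3]
        simp only [sl, if_neg h2, if_neg h3, if_neg (show p + 1 ≠ p by omega), if_true]
        exact ⟨trivial, by omega, by omega⟩
      · rw [sw_o h2 h3 h1 h4]
        simp only [sl, if_neg h1, if_neg h2, if_neg h3, if_neg h4]
        exact ⟨(conj_of_comm (h.x_comm hp hij hj h2 h3 h1 h4)).symm, by omega, by omega⟩

theorem PBN.exch (h : PBN n a) {p : ℕ} (hp : p + 1 < n) : PBN n (sw a p) := by
  obtain ⟨x, hx⟩ : ∃ x, x = a p (p + 1) := ⟨_, rfl⟩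
  have L := fun {i j : ℕ} (hij : i < j) (hj : j < n) => h.sw_lift hp hij hj
  have cj3 : ∀ {x u v w : G}, Commute (u * v * w) v →
      Commute (x * u * x⁻¹ * (x * v * x⁻¹) * (x * w * x⁻¹)) (x * v * x⁻¹) := by
    intro x u v w h
    have e : x * u * x⁻¹ * (x * v * x⁻¹) * (x * w * x⁻¹) = x * (u * v * w) * x⁻¹ := by group
    rw [e]
    exact conj_comm h
  have cj3' : ∀ {x u v w : G}, Commute (u * v * w) w →
      Commute (x * u * x⁻¹ * (x * v * x⁻¹) * (x * w * x⁻¹)) (x * w * x⁻¹) := by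
    intro x u v w h
    have e : x * u * x⁻¹ * (x * v * x⁻¹) * (x * w * x⁻¹) = x * (u * v * w) * x⁻¹ := by group
    rw [e]
    exact conj_comm h
  constructor
  · -- t1
    intro i j k hij hjk hk
    by_cases c1 : i ≠ p + 1 ∧ j ≠ p + 1 ∧ k ≠ p + 1
    · obtain ⟨e1, l1, -⟩ := (L hij (by omega)).1 ⟨c1.1, c1.2.1⟩
      obtain ⟨e2, -, -⟩ := (L (hij.trans hjk) hk).1 ⟨c1.1, c1.2.2⟩
      obtain ⟨e3, l3, m3⟩ := (L hjk hk).1 ⟨c1.2.1, c1.2.2⟩
      rw [e1, e2, e3]
      exact h.t1 _ _ _ l1 l3 m3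
    · by_cases c2 : i ≠ p ∧ j ≠ p ∧ k ≠ p
      · obtain ⟨e1, l1, -⟩ := (L hij (by omega)).2 ⟨c2.1, c2.2.1⟩
        obtain ⟨e2, -, -⟩ := (L (hij.trans hjk) hk).2 ⟨c2.1, c2.2.2⟩
        obtain ⟨e3, l3, m3⟩ := (L hjk hk).2 ⟨c2.2.1, c2.2.2⟩
        rw [e1, e2, e3]
        exact cj3 (h.t1 _ _ _ l1 l3 m3)
      · have hc : (i = p ∧ j = p + 1) ∨ (j = p ∧ k = p + 1) := by omega
        rcases hc with ⟨rfl, rfl⟩ | ⟨rfl, rfl⟩
        · rw [sw_x, sw_i (by omega) (by omega), sw_i1 (by omega) (by omega)]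
          obtain ⟨c3, c4⟩ := h.cyc (show i < i + 1 by omega) hjk hk
          have e : a i (i + 1) * a (i + 1) k * (a i (i + 1) * a i k * (a i (i + 1))⁻¹) =
              a i (i + 1) * (a i (i + 1) * a i k * a (i + 1) k) * (a i (i + 1))⁻¹ := by
            rw [c4]
            group
          rw [e]
          have c5 : Commute (a i (i + 1) * a i k * a (i + 1) k) (a i (i + 1)) :=
            h.t0 (by omega) hjk hk
          rw [conj_of_comm c5.symm]
          exact h.t2 _ _ _ (by omega) hjk hk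
        · rw [sw_j, sw_j1 (by omega), sw_x]
          obtain ⟨c3, c4⟩ := h.cyc hij (show j < j + 1 by omega) hk
          have e : a i (j + 1) * (a j (j + 1) * a i j * (a j (j + 1))⁻¹) * a j (j + 1) =
              a i j * a i (j + 1) * a j (j + 1) := by
            rw [c3]
            group
          rw [e]
          have c5 := h.t2 _ _ _ hij (show j < j + 1 by omega) hk
          exact (c5.mul_right (h.t0 hij (by omega) hk)).mul_right c5.inv_right
  · -- t2
    intro i j k hij hjk hk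
    by_cases c1 : i ≠ p + 1 ∧ j ≠ p + 1 ∧ k ≠ p + 1
    · obtain ⟨e1, l1, -⟩ := (L hij (by omega)).1 ⟨c1.1, c1.2.1⟩
      obtain ⟨e2, -, -⟩ := (L (hij.trans hjk) hk).1 ⟨c1.1, c1.2.2⟩
      obtain ⟨e3, l3, m3⟩ := (L hjk hk).1 ⟨c1.2.1, c1.2.2⟩
      rw [e1, e2, e3]
      exact h.t2 _ _ _ l1 l3 m3
    · by_cases c2 : i ≠ p ∧ j ≠ p ∧ k ≠ p
      · obtain ⟨e1, l1, -⟩ := (L hij (by omega)).2 ⟨c2.1, c2.2.1⟩
        obtain ⟨e2, -, -⟩ := (L (hij.trans hjk) hk).2 ⟨c2.1, c2.2.2⟩
        obtain ⟨e3, l3, m3⟩ := (L hjk hk).2 ⟨c2.2.1, c2.2.2⟩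
        rw [e1, e2, e3]
        exact cj3' (h.t2 _ _ _ l1 l3 m3)
      · have hc : (i = p ∧ j = p + 1) ∨ (j = p ∧ k = p + 1) := by omega
        rcases hc with ⟨rfl, rfl⟩ | ⟨rfl, rfl⟩
        · rw [sw_x, sw_i (by omega) (by omega), sw_i1 (by omega) (by omega)]
          obtain ⟨c3, c4⟩ := h.cyc (show i < i + 1 by omega) hjk hk
          have e : a i (i + 1) * a (i + 1) k * (a i (i + 1) * a i k * (a i (i + 1))⁻¹) =
              a i (i + 1) * (a i (i + 1) * a i k * a (i + 1) k) * (a i (i + 1))⁻¹ := by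
            rw [c4]
            group
          rw [e]
          have c5 : Commute (a i (i + 1) * a i k * a (i + 1) k) (a i (i + 1)) :=
            h.t0 (by omega) hjk hk
          have c6 := h.t1 _ _ _ (show i < i + 1 by omega) hjk hk
          rw [conj_of_comm c5.symm]
          exact (c5.mul_right c6).mul_right c5.inv_right
        · rw [sw_j, sw_j1 (by omega), sw_x]
          obtain ⟨c3, c4⟩ := h.cyc hij (show j < j + 1 by omega) hk
          have e : a i (j + 1) * (a j (j + 1) * a i j * (a j (j + 1))⁻¹) * a j (j + 1) =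
              a i j * a i (j + 1) * a j (j + 1) := by
            rw [c3]
            group
          rw [e]
          exact h.t2 _ _ _ hij (by omega) hk
  · -- q1
    intro i j k l hij hjk hkl hl
    by_cases c1 : (i ≠ p + 1 ∧ j ≠ p + 1) ∧ k ≠ p + 1 ∧ l ≠ p + 1
    · obtain ⟨e1, l1, -⟩ := (L hij (by omega)).1 c1.1
      obtain ⟨e2, l2, m2⟩ := (L hkl hl).1 c1.2
      obtain ⟨-, l3, -⟩ := (L hjk (by omega)).1 ⟨c1.1.2, c1.2.1⟩
      rw [e1, e2]
      exact h.q1 _ _ _ _ l1 l3 l2 m2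
    · by_cases c2 : (i ≠ p ∧ j ≠ p) ∧ k ≠ p ∧ l ≠ p
      · obtain ⟨e1, l1, -⟩ := (L hij (by omega)).2 c2.1
        obtain ⟨e2, l2, m2⟩ := (L hkl hl).2 c2.2
        obtain ⟨-, l3, -⟩ := (L hjk (by omega)).2 ⟨c2.1.2, c2.2.1⟩
        rw [e1, e2]
        exact conj_comm (h.q1 _ _ _ _ l1 l3 l2 m2)
      · have hc : (i = p ∧ j = p + 1) ∨ (j = p ∧ k = p + 1) ∨ (k = p ∧ l = p + 1) := by omega
        rcases hc with ⟨rfl, rfl⟩ | ⟨rfl, rfl⟩ | ⟨rfl, rfl⟩
        · rw [sw_x, sw_o (by omega) (by omega) (by omega) (by omega)]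
          exact h.q1 _ _ _ _ (by omega) hjk hkl hl
        · rw [sw_j, sw_i1 (by omega) (by omega)]
          exact h.r3 hij (by omega) hkl hl
        · rw [sw_x, sw_o (by omega) (by omega) (by omega) (by omega)]
          exact h.q1 _ _ _ _ hij hjk (by omega) hl
  · -- q2
    intro i j k l hij hjk hkl hl
    by_cases c1 : (i ≠ p + 1 ∧ j ≠ p + 1) ∧ k ≠ p + 1 ∧ l ≠ p + 1
    · obtain ⟨e1, -, m1⟩ := (L (show i < l by omega) hl).1 ⟨c1.1.1, c1.2.2⟩
      obtain ⟨e2, l2, -⟩ := (L hjk (by omega)).1 ⟨c1.1.2, c1.2.1⟩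
      obtain ⟨-, l3, -⟩ := (L hij (by omega)).1 c1.1
      obtain ⟨-, l4, -⟩ := (L hkl hl).1 c1.2
      rw [e1, e2]
      exact h.q2 _ _ _ _ l3 l2 l4 m1
    · by_cases c2 : (i ≠ p ∧ j ≠ p) ∧ k ≠ p ∧ l ≠ p
      · obtain ⟨e1, -, m1⟩ := (L (show i < l by omega) hl).2 ⟨c2.1.1, c2.2.2⟩
        obtain ⟨e2, l2, -⟩ := (L hjk (by omega)).2 ⟨c2.1.2, c2.2.1⟩
        obtain ⟨-, l3, -⟩ := (L hij (by omega)).2 c2.1
        obtain ⟨-, l4, -⟩ := (L hkl hl).2 c2.2
        rw [e1, e2]
        exact conj_comm (h.q2 _ _ _ _ l3 l2 l4 m1)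
      · have hc : (i = p ∧ j = p + 1) ∨ (j = p ∧ k = p + 1) ∨ (k = p ∧ l = p + 1) := by omega
        rcases hc with ⟨rfl, rfl⟩ | ⟨rfl, rfl⟩ | ⟨rfl, rfl⟩
        · rw [sw_i (by omega) (by omega), sw_i1 (by omega) (by omega)]
          exact (h.r2 (by omega) hjk hkl hl).symm
        · rw [sw_x, sw_o (by omega) (by omega) (by omega) (by omega)]
          exact h.q2 _ _ _ _ hij (by omega) hkl hl
        · rw [sw_j, sw_j1 (by omega)]
          exact h.q3 _ _ _ _ hij hjk (by omega) hl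
  · -- q3
    intro i j k l hij hjk hkl hl
    by_cases c1 : (i ≠ p + 1 ∧ j ≠ p + 1) ∧ k ≠ p + 1 ∧ l ≠ p + 1
    · obtain ⟨e1, l1, m1⟩ := (L hkl hl).1 c1.2
      obtain ⟨e2, -, -⟩ := (L (show i < k by omega) (by omega)).1 ⟨c1.1.1, c1.2.1⟩
      obtain ⟨e3, -, -⟩ := (L (show j < l by omega) hl).1 ⟨c1.1.2, c1.2.2⟩
      obtain ⟨-, l3, -⟩ := (L hij (by omega)).1 c1.1
      obtain ⟨-, l4, -⟩ := (L hjk (by omega)).1 ⟨c1.1.2, c1.2.1⟩
      rw [e1, e2, e3]
      exact h.q3 _ _ _ _ l3 l4 l1 m1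
    · by_cases c2 : (i ≠ p ∧ j ≠ p) ∧ k ≠ p ∧ l ≠ p
      · obtain ⟨e1, l1, m1⟩ := (L hkl hl).2 c2.2
        obtain ⟨e2, -, -⟩ := (L (show i < k by omega) (by omega)).2 ⟨c2.1.1, c2.2.1⟩
        obtain ⟨e3, -, -⟩ := (L (show j < l by omega) hl).2 ⟨c2.1.2, c2.2.2⟩
        obtain ⟨-, l3, -⟩ := (L hij (by omega)).2 c2.1
        obtain ⟨-, l4, -⟩ := (L hjk (by omega)).2 ⟨c2.1.2, c2.2.1⟩
        rw [e1, e2, e3]
        have e : ∀ x u v : G, x * u * x⁻¹ * (x * v * x⁻¹) * (x * u * x⁻¹)⁻¹ =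
            x * (u * v * u⁻¹) * x⁻¹ := by
          intro x u v
          group
        rw [e]
        exact conj_comm (h.q3 _ _ _ _ l3 l4 l1 m1)
      · have hc : (i = p ∧ j = p + 1) ∨ (j = p ∧ k = p + 1) ∨ (k = p ∧ l = p + 1) := by omega
        rcases hc with ⟨rfl, rfl⟩ | ⟨rfl, rfl⟩ | ⟨rfl, rfl⟩
        · rw [sw_o (by omega) (by omega) (by omega) (by omega), sw_i (by omega) (by omega),
            sw_i1 (by omega) (by omega)]
          -- x34 x23 x34⁻¹ against x12 x14 x12⁻¹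
          obtain ⟨c3, c4⟩ := h.cyc (show i < i + 1 by omega) hjk (show k < n by omega)
          obtain ⟨c5, c6⟩ := h.cyc (show i < k by omega) hkl hl
          have hq := h.q2 i (i + 1) k l (by omega) hjk hkl hl
          have h34 := h.q1 i (i + 1) k l (by omega) hjk hkl hl
          have e1 : a (i + 1) k = a i (i + 1) * (a i k * a (i + 1) k * (a i k)⁻¹) *
              (a i (i + 1))⁻¹ := by
            have : a i (i + 1) * a i k * a (i + 1) k * (a i k)⁻¹ * (a i (i + 1))⁻¹ = a (i + 1) k := by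
              rw [c4]
              group
            exact this.symm.trans (by group)
          have e2 : a k l * a i k * a i l * (a i k)⁻¹ * (a k l)⁻¹ = a i l := by
            have : a k l * a i k * a i l = a i l * a k l * a i k := by rw [← c6, c5]
            rw [this]
            group
          have h34' : a k l * a i (i + 1) = a i (i + 1) * a k l := h34.symm
          have e3 : a k l * a (i + 1) k * (a k l)⁻¹ = a i (i + 1) *
              (a k l * a i k * a (i + 1) k * (a i k)⁻¹ * (a k l)⁻¹) * (a i (i + 1))⁻¹ := by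
            rw [e1]
            have e4 : a k l * (a i (i + 1) * (a i k * a (i + 1) k * (a i k)⁻¹) * (a i (i + 1))⁻¹) *
                (a k l)⁻¹ = (a k l * a i (i + 1)) * (a i k * a (i + 1) k * (a i k)⁻¹) *
                (a k l * a i (i + 1))⁻¹ := by group
            rw [e4, h34', ← e1]
            group
          rw [e3]
          apply conj_comm
          rw [← e2]
          have e5 : a k l * a i k * a (i + 1) k * (a i k)⁻¹ * (a k l)⁻¹ =
              (a k l * a i k) * a (i + 1) k * (a k l * a i k)⁻¹ := by group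
          have e6 : a k l * a i k * a i l * (a i k)⁻¹ * (a k l)⁻¹ =
              (a k l * a i k) * a i l * (a k l * a i k)⁻¹ := by group
          rw [e5, e6]
          exact conj_comm hq.symm
        · rw [sw_i1 (by omega) (by omega), sw_j1 (by omega), sw_i (by omega) (by omega)]
          -- x23 x24 x12 x24⁻¹ x23⁻¹ against x34
          obtain ⟨c3, c4⟩ := h.cyc (show j < j + 1 by omega) hkl hl
          have hq := h.q1 i j (j + 1) l hij (by omega) hkl hl
          have e1 : a (j + 1) l = a j (j + 1) * (a j l * a (j + 1) l * (a j l)⁻¹) *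
              (a j (j + 1))⁻¹ := by
            have : a j (j + 1) * a j l * a (j + 1) l * (a j l)⁻¹ * (a j (j + 1))⁻¹ =
                a (j + 1) l := by
              rw [c4]
              group
            exact this.symm.trans (by group)
          have e2 : a j (j + 1) * a j l * (a j (j + 1))⁻¹ *
              (a j (j + 1) * a i j * (a j (j + 1))⁻¹) *
              (a j (j + 1) * a j l * (a j (j + 1))⁻¹)⁻¹ =
              a j (j + 1) * (a j l * a i j * (a j l)⁻¹) * (a j (j + 1))⁻¹ := by group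
          rw [e2, e1]
          exact conj_comm (conj_comm hq)
        · rw [sw_x, sw_j, sw_j1 (by omega)]
          exact conj_comm (h.q2 _ _ _ _ hij hjk (by omega) hl)

end Pool.Agent.Frm14
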