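import Mathlib
import Pool.Agent.Frm14.Sw
import Pool.Agent.Frm14.Eq
import Pool.Agent.Conf14.One

/-! The case of equality for families satisfying the pure braid relations. -/

namespace Pool.Agent.Frm14

open Pool.Agent.Conf14

section
variable {G : Type*} [Group G] {n : ℕ} {a : ℕ → ℕ → G}

theorem cr_congr' {a b : ℕ → ℕ → G} {s u l l' : ℕ}
    (h : ∀ m, s ≤ m → m < s + u → a m l = b m l') : cr a s u l = cr b s u l' := by
  induction u with
  | zero => rfl
  | succ u ih =>
      rw [cr_succ, cr_succ, ih fun m h1 h2 => h m h1 (by omega), h _ (by omega) (by omega)]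

theorem cr_conj {a b : ℕ → ℕ → G} {x : G} {s u l l' : ℕ}
    (h : ∀ m, s ≤ m → m < s + u → a m l = x * b m l' * x⁻¹) :
    cr a s u l = x * cr b s u l' * x⁻¹ := by
  induction u with
  | zero => rw [cr_zero, cr_zero]; group
  | succ u ih =>
      rw [cr_succ, cr_succ, ih fun m h1 h2 => h m h1 (by omega), h _ (by omega) (by omega)]
      group

theorem PBN.sw_col (h : PBN n a) {p k : ℕ} (hp : p + 2 ≤ k) (hk : k < n) :
    cr (sw a p) 0 k k = cr a 0 k k := by
  obtain ⟨w, rfl⟩ : ∃ w, k = p + (2 + w) := ⟨k - (p + 2), by omega⟩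
  have h1 : ∀ f : ℕ → ℕ → G, ∀ l, cr f 0 (p + (2 + w)) l =
      cr f 0 p l * (f p l * f (p + 1) l) * cr f (p + 2) w l := by
    intro f l
    have h2 : cr f p 2 l = f p l * f (p + 1) l := by
      rw [cr_succ, cr_succ, cr_zero, one_mul, add_zero]
    rw [cr_add, cr_add, zero_add, h2]
    group
  rw [h1, h1]
  have e1 : cr (sw a p) 0 p (p + (2 + w)) = cr a 0 p (p + (2 + w)) :=
    cr_congr fun m _ hm => sw_o (by omega) (by omega) (by omega) (by omega)
  have e2 : cr (sw a p) (p + 2) w (p + (2 + w)) = cr a (p + 2) w (p + (2 + w)) :=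
    cr_congr fun m h2 hm => sw_o (by omega) (by omega) (by omega) (by omega)
  rw [e1, e2, sw_i (by omega) (by omega), sw_i1 (by omega) (by omega)]
  obtain ⟨c1, c2⟩ := h.cyc (show p < p + 1 by omega) (show p + 1 < p + (2 + w) by omega) hk
  have e3 : a (p + 1) (p + (2 + w)) * (a p (p + 1) * a p (p + (2 + w)) * (a p (p + 1))⁻¹) =
      a p (p + (2 + w)) * a (p + 1) (p + (2 + w)) := by
    have : a (p + 1) (p + (2 + w)) * a p (p + 1) * a p (p + (2 + w)) =
        a p (p + (2 + w)) * a (p + 1) (p + (2 + w)) * a p (p + 1) := by rw [← c2, c1]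
    calc _ = a (p + 1) (p + (2 + w)) * a p (p + 1) * a p (p + (2 + w)) * (a p (p + 1))⁻¹ := by
          group
      _ = _ := by rw [this]; group
  rw [e3]

theorem PBN.sw_tw (h : PBN n a) {p m : ℕ} (hp : p + 2 ≤ m) (hm : m ≤ n) :
    tw (sw a p) m = tw a m := by
  obtain ⟨w, rfl⟩ : ∃ w, m = p + 2 + w := ⟨m - (p + 2), by omega⟩
  induction w with
  | zero =>
      rw [add_zero]
      have e0 : tw (sw a p) p = tw a p :=
        tw_congr fun i j h1 h2 => sw_o (by omega) (by omega) (by omega) (by omega)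
      have e1 : cr (sw a p) 0 p p = cr a 0 p (p + 1) := cr_congr' fun m _ hm => sw_j
      have e2 : cr (sw a p) 0 p (p + 1) = a p (p + 1) * cr a 0 p p * (a p (p + 1))⁻¹ :=
        cr_conj fun m _ hm => sw_j1 (by omega)
      have e3 : tw (sw a p) (p + 2) = tw (sw a p) p * cr (sw a p) 0 p p *
          (cr (sw a p) 0 p (p + 1) * sw a p p (p + 1)) := by
        rw [tw_succ, tw_succ, cr_succ, zero_add]
      have e4 : tw a (p + 2) = tw a p * cr a 0 p p * (cr a 0 p (p + 1) * a p (p + 1)) := by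
        rw [tw_succ, tw_succ, cr_succ, zero_add]
      rw [e3, e4, e0, e1, e2, sw_x]
      obtain ⟨b1, b2⟩ := h.block (le_refl p) (show p < p + 1 by omega) (show p + 1 < n by omega)
      have e5 : cr a 0 p (p + 1) * (a p (p + 1) * cr a 0 p p * (a p (p + 1))⁻¹ * a p (p + 1)) =
          cr a 0 p p * (cr a 0 p (p + 1) * a p (p + 1)) := by
        rw [← mul_assoc (cr a 0 p p), b1]
        group
      rw [mul_assoc, e5, mul_assoc]
  | succ w ih =>
      rw [← add_assoc, tw_succ, tw_succ, ih (by omega) (by omega),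
        h.sw_col (by omega) (by omega)]

/-- moving three strands to the front -/
theorem move3 {n : ℕ} (Φ : (ℕ → ℕ → G) → Prop) (hpb : ∀ a, Φ a → PBN n a)
    (hsw : ∀ a, Φ a → ∀ p, p + 1 < n → Φ (sw a p)) {M : ℕ} (hM : M ≤ n) :
    ∀ (s i j l : ℕ), i + j + l = s → i < j → j < l → l < M → ∀ a, Φ a →
      ∃ b, Φ b ∧ b 0 1 = a i j ∧ b 1 2 = a j l ∧ tw b M = tw a M := by
  intro s
  induction s using Nat.strong_induction_on with
  | _ s ih =>
    intro i j l hs hij hjl hl a ha
    rcases Nat.eq_zero_or_pos i with h0 | h0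
    · subst h0
      rcases Nat.lt_or_ge 1 j with h1 | h1
      · -- move `j`
        obtain ⟨q, rfl⟩ : ∃ q, j = q + 1 := ⟨j - 1, by omega⟩
        obtain ⟨b, hb, e1, e2, e3⟩ := ih (0 + q + l) (by omega) 0 q l rfl (by omega) (by omega) hl
          (sw a q) (hsw a ha q (by omega))
        refine ⟨b, hb, ?_, ?_, ?_⟩
        · rw [e1, sw_j]
        · rw [e2, sw_i (by omega) (by omega)]
        · rw [e3, (hpb a ha).sw_tw (by omega) hM]
      · obtain rfl : j = 1 := by omega
        rcases Nat.lt_or_ge 2 l with h2 | h2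
        · obtain ⟨q, rfl⟩ : ∃ q, l = q + 1 := ⟨l - 1, by omega⟩
          obtain ⟨b, hb, e1, e2, e3⟩ := ih (0 + 1 + q) (by omega) 0 1 q rfl (by omega) (by omega)
            (by omega) (sw a q) (hsw a ha q (by omega))
          refine ⟨b, hb, ?_, ?_, ?_⟩
          · rw [e1, sw_o (by omega) (by omega) (by omega) (by omega)]
          · rw [e2, sw_j]
          · rw [e3, (hpb a ha).sw_tw (by omega) hM]
        · obtain rfl : l = 2 := by omega
          exact ⟨a, ha, rfl, rfl, rfl⟩
    · obtain ⟨q, rfl⟩ : ∃ q, i = q + 1 := ⟨i - 1, by omega⟩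
      obtain ⟨b, hb, e1, e2, e3⟩ := ih (q + j + l) (by omega) q j l rfl (by omega) (by omega) hl
        (sw a q) (hsw a ha q (by omega))
      refine ⟨b, hb, ?_, ?_, ?_⟩
      · rw [e1, sw_i (by omega) (by omega)]
      · rw [e2, sw_o (by omega) (by omega) (by omega) (by omega)]
      · rw [e3, (hpb a ha).sw_tw (by omega) hM]

/-- moving two strands to the front -/
theorem move2 {n : ℕ} (Φ : (ℕ → ℕ → G) → Prop) (hpb : ∀ a, Φ a → PBN n a)
    (hsw : ∀ a, Φ a → ∀ p, p + 1 < n → Φ (sw a p)) {M : ℕ} (hM : M ≤ n) :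
    ∀ (s i j : ℕ), i + j = s → i < j → j < M → ∀ a, Φ a →
      ∃ b, Φ b ∧ b 0 1 = a i j ∧ tw b M = tw a M := by
  intro s
  induction s using Nat.strong_induction_on with
  | _ s ih =>
    intro i j hs hij hj a ha
    rcases Nat.eq_zero_or_pos i with h0 | h0
    · subst h0
      rcases Nat.lt_or_ge 1 j with h1 | h1
      · obtain ⟨q, rfl⟩ : ∃ q, j = q + 1 := ⟨j - 1, by omega⟩
        obtain ⟨b, hb, e1, e3⟩ := ih (0 + q) (by omega) 0 q rfl (by omega) (by omega)
          (sw a q) (hsw a ha q (by omega))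
        refine ⟨b, hb, ?_, ?_⟩
        · rw [e1, sw_j]
        · rw [e3, (hpb a ha).sw_tw (by omega) hM]
      · obtain rfl : j = 1 := by omega
        exact ⟨a, ha, rfl, rfl⟩
    · obtain ⟨q, rfl⟩ : ∃ q, i = q + 1 := ⟨i - 1, by omega⟩
      obtain ⟨b, hb, e1, e3⟩ := ih (q + j) (by omega) q j rfl (by omega) (by omega)
        (sw a q) (hsw a ha q (by omega))
      refine ⟨b, hb, ?_, ?_⟩
      · rw [e1, sw_i (by omega) (by omega)]
      · rw [e3, (hpb a ha).sw_tw (by omega) hM]

end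

section
variable {V : Type*} [AddCommGroup V] [Module ℂ V]

theorem exists_ne_of_not_commute {f g : V ≃ₗ[ℂ] V} (h : ¬ Commute f g) :
    ∃ v, f (g v) ≠ g (f v) := by
  by_contra hcon
  push Not at hcon
  exact h (commute_iff'.mpr hcon)

/-- the chain of the full twists of the initial segments -/
theorem PBN.chn {k : ℕ} {a : ℕ → ℕ → (V ≃ₗ[ℂ] V)} (h : PBN (k + 2) a)
    (hnc : ∀ j, 2 ≤ j → j < k + 2 → ¬ Commute (tw a j) (a (j - 1) j)) :
    Chn (tw a (k + 2)).toLinearMap (fun j : Fin k => (tw a (j + 2)).toLinearMap)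
      (fun j : Fin k => (a (j + 1) (j + 1 + 1)).toLinearMap) := by
  constructor
  · intro i j v
    exact commute_iff'.mp (h.tw_tw (by have := i.isLt; omega) (by have := j.isLt; omega)) v
  · intro i j hij v
    have hi := i.isLt
    have hj := j.isLt
    have hne : (i : ℕ) ≠ j := fun e => hij (Fin.ext e)
    rcases lt_or_gt_of_ne hne with h1 | h1
    · exact commute_iff'.mp (h.tw_out (i := i + 2) (p := j + 1) (q := j + 1 + 1) (by omega)
        (by omega) (by omega)) v
    · exact commute_iff'.mp (h.tw_in (p := j + 1) (j := i + 2) (by omega) (by omega)) v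
  · intro i
    have hi := i.isLt
    apply exists_ne_of_not_commute
    exact hnc (i + 2) (by omega) (by omega)
  · intro i v
    have hi := i.isLt
    exact commute_iff'.mp (h.tw_tw (le_refl _) (by omega)) v
  · intro i v
    have hi := i.isLt
    exact commute_iff'.mp (h.tw_in (p := i + 1) (j := k + 2) (by omega) (le_refl _)) v

theorem PBN.mono {n m : ℕ} {G : Type*} [Group G] {a : ℕ → ℕ → G} (h : PBN n a) (hm : m ≤ n) :
    PBN m a :=
  ⟨fun i j k h1 h2 h3 => h.t1 i j k h1 h2 (by omega), fun i j k h1 h2 h3 => h.t2 i j k h1 h2 (by omega),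
    fun i j k l h1 h2 h3 h4 => h.q1 i j k l h1 h2 h3 (by omega),
    fun i j k l h1 h2 h3 h4 => h.q2 i j k l h1 h2 h3 (by omega),
    fun i j k l h1 h2 h3 h4 => h.q3 i j k l h1 h2 h3 (by omega)⟩

/-- The case of equality: the full twist of the first `n` strands acts as a scalar plus a map of
rank at most one, if the dimension is `n` and no full twist of fewer strands commutes with the
next generator, for the family and all the families obtained from it by exchanges. -/
theorem rkOne_tw [FiniteDimensional ℂ V] {n : ℕ} (hn : 2 ≤ n) (hV : Module.finrank ℂ V = n)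
    (Φ : (ℕ → ℕ → (V ≃ₗ[ℂ] V)) → Prop) (hpb : ∀ a, Φ a → PBN n a)
    (hsw : ∀ a, Φ a → ∀ p, p + 1 < n → Φ (sw a p))
    (hnc : ∀ a, Φ a → ∀ j, 2 ≤ j → j < n → ¬ Commute (tw a j) (a (j - 1) j))
    (a : ℕ → ℕ → (V ≃ₗ[ℂ] V)) (ha : Φ a) : RkOne (tw a n) := by
  obtain ⟨k, rfl⟩ : ∃ k, n = k + 2 := ⟨n - 2, by omega⟩
  apply equality hV (tw a (k + 2)).toLinearMap (fun p => (a p (p + 1)).toLinearMap)
  · exact ⟨_, (hpb a ha).chn (hnc a ha)⟩
  · intro p hp hk
    obtain ⟨b, hb, e1, e2⟩ := move2 Φ hpb hsw (le_refl (k + 2)) _ p (p + 1) rfl (by omega)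
      (by omega) a ha
    have hc := (hpb b hb).chn (hnc b hb)
    rw [e2] at hc
    refine ⟨_, _, ⟨0, hk⟩, hc, ?_⟩
    show (tw b 2).toLinearMap = _
    rw [tw_two, e1]
  · intro p hp
    obtain ⟨b, hb, e1, e2, -⟩ := move3 Φ hpb hsw (le_refl (k + 2)) _ p (p + 1) (p + 1 + 1) rfl
      (by omega) (by omega) (by omega) a ha
    have h1 := hnc b hb 2 (le_refl _) (by omega)
    rw [tw_two, e1, show b (2 - 1) 2 = a (p + 1) (p + 1 + 1) from e2] at h1
    exact exists_ne_of_not_commute h1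

end

end Pool.Agent.Frm14
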